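import Mathlib

set_option autoImplicit false

/-!
Partitions of `E(K_n) x E(K_n)` into products of bicliques.
-/

namespace Pool.Agent.BicliqueHalf

/-- `E(K_n) x E(K_n)` has a partition into exactly `k` blocks: block `i` consists of the pairs
`(xy, uv)` with `x, y` on different sides of the biclique with (disjoint nonempty) vertex classes
`A i, B i` and `u, v` on different sides of the biclique with vertex classes `C i, D i`. -/
def HasPartition (n k : ℕ) : Prop :=
  ∃ A B C D : Fin k → Finset (Fin n),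
    (∀ i, (A i).Nonempty ∧ (B i).Nonempty ∧ Disjoint (A i) (B i) ∧
      (C i).Nonempty ∧ (D i).Nonempty ∧ Disjoint (C i) (D i)) ∧
    ∀ x y u v : Fin n, x ≠ y → u ≠ v →
      ∃! i : Fin k, ((x ∈ A i ∧ y ∈ B i) ∨ (x ∈ B i ∧ y ∈ A i)) ∧
        ((u ∈ C i ∧ v ∈ D i) ∨ (u ∈ D i ∧ v ∈ C i))

/-- the least number of blocks in a partition of `E(K_n) x E(K_n)` -/
noncomputable def g (n : ℕ) : ℕ := sInf {k | HasPartition n k}

end Pool.Agent.BicliqueHalf
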