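import Mathlib

set_option autoImplicit false

/-!
Bookkeeping for partitions of `E(K_V) x E(K_W)` into products of bicliques: `Rep1 a k` says that
`a` counts the covers by at most `k` bicliques, `Rep2 f k` that `f` counts the covers by at most
`k` products of bicliques.
-/

namespace Pool.Agent.BicliqueHalf

open Finset

open scoped Classical in
/-- indicator of a proposition -/
noncomputable def ind (P : Prop) : ℕ := if P then 1 else 0

theorem ind_pos {P : Prop} (h : P) : ind P = 1 := by simp [ind, h]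
theorem ind_neg {P : Prop} (h : ¬ P) : ind P = 0 := by simp [ind, h]
theorem ind_congr {P Q : Prop} (h : P ↔ Q) : ind P = ind Q := by
  rw [propext h]

/-- the pair `x, y` is covered by the biclique with sides `A, B` -/
def Cv {V : Type} (A B : Set V) (x y : V) : Prop := (x ∈ A ∧ y ∈ B) ∨ (x ∈ B ∧ y ∈ A)

def Rep1 {V : Type} (a : V → V → ℕ) (k : ℕ) : Prop :=
  ∃ (ι : Type) (_ : Fintype ι) (A B : ι → Set V), Fintype.card ι ≤ k ∧
    (∀ i, Disjoint (A i) (B i)) ∧ ∀ x y, x ≠ y → ∑ i, ind (Cv (A i) (B i) x y) = a x y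

def Rep2 {V W : Type} (f : V → V → W → W → ℕ) (k : ℕ) : Prop :=
  ∃ (ι : Type) (_ : Fintype ι) (A B : ι → Set V) (C D : ι → Set W), Fintype.card ι ≤ k ∧
    (∀ i, Disjoint (A i) (B i)) ∧ (∀ i, Disjoint (C i) (D i)) ∧
    ∀ x y u v, x ≠ y → u ≠ v →
      ∑ i, ind (Cv (A i) (B i) x y) * ind (Cv (C i) (D i) u v) = f x y u v

variable {V W : Type}

theorem Rep1.mono {a : V → V → ℕ} {k l : ℕ} (h : Rep1 a k) (hkl : k ≤ l) : Rep1 a l := by
  obtain ⟨ι, i1, A, B, h1, h2, h3⟩ := h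
  exact ⟨ι, i1, A, B, h1.trans hkl, h2, h3⟩

theorem Rep1.congr {a b : V → V → ℕ} {k : ℕ} (h : Rep1 a k)
    (hab : ∀ x y, x ≠ y → a x y = b x y) : Rep1 b k := by
  obtain ⟨ι, i1, A, B, h1, h2, h3⟩ := h
  exact ⟨ι, i1, A, B, h1, h2, fun x y hxy => by rw [h3 x y hxy, hab x y hxy]⟩

theorem Rep2.mono {f : V → V → W → W → ℕ} {k l : ℕ} (h : Rep2 f k) (hkl : k ≤ l) : Rep2 f l := by
  obtain ⟨ι, i1, A, B, C, D, h1, h2, h3, h4⟩ := h
  exact ⟨ι, i1, A, B, C, D, h1.trans hkl, h2, h3, h4⟩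

theorem Rep2.congr {f g : V → V → W → W → ℕ} {k : ℕ} (h : Rep2 f k)
    (hfg : ∀ x y u v, x ≠ y → u ≠ v → f x y u v = g x y u v) : Rep2 g k := by
  obtain ⟨ι, i1, A, B, C, D, h1, h2, h3, h4⟩ := h
  exact ⟨ι, i1, A, B, C, D, h1, h2, h3, fun x y u v hxy huv => by
    rw [h4 x y u v hxy huv, hfg x y u v hxy huv]⟩

theorem Rep2.mul {a : V → V → ℕ} {b : W → W → ℕ} {k l : ℕ} (h : Rep1 a k) (h' : Rep1 b l) :
    Rep2 (fun x y u v => a x y * b u v) (k * l) := by
  obtain ⟨ι, i1, A, B, h1, h2, h3⟩ := h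
  obtain ⟨κ, i2, C, D, h1', h2', h3'⟩ := h'
  refine ⟨ι × κ, inferInstance, fun i => A i.1, fun i => B i.1, fun i => C i.2, fun i => D i.2,
    ?_, fun i => h2 _, fun i => h2' _, ?_⟩
  · rw [Fintype.card_prod]; exact Nat.mul_le_mul h1 h1'
  · intro x y u v hxy huv
    beta_reduce
    rw [← h3 x y hxy, ← h3' u v huv, Finset.sum_mul_sum, ← Finset.univ_product_univ,
      Finset.sum_product]

theorem Rep2.add {f g : V → V → W → W → ℕ} {k l : ℕ} (h : Rep2 f k) (h' : Rep2 g l) :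
    Rep2 (fun x y u v => f x y u v + g x y u v) (k + l) := by
  obtain ⟨ι, i1, A, B, C, D, h1, h2, h3, h4⟩ := h
  obtain ⟨κ, i2, A', B', C', D', h1', h2', h3', h4'⟩ := h'
  refine ⟨ι ⊕ κ, inferInstance, Sum.elim A A', Sum.elim B B', Sum.elim C C', Sum.elim D D',
    ?_, ?_, ?_, ?_⟩
  · rw [Fintype.card_sum]; exact Nat.add_le_add h1 h1'
  · rintro (i | i)
    · exact h2 i
    · exact h2' i
  · rintro (i | i)
    · exact h3 i
    · exact h3' i
  · intro x y u v hxy huv
    rw [Fintype.sum_sum_type]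
    simp only [Sum.elim_inl, Sum.elim_inr]
    rw [h4 x y u v hxy huv, h4' x y u v hxy huv]

theorem Rep2.zero : Rep2 (fun (_ _ : V) (_ _ : W) => 0) 0 := by
  refine ⟨Empty, inferInstance, fun i => i.elim, fun i => i.elim, fun i => i.elim,
    fun i => i.elim, by simp, fun i => i.elim, fun i => i.elim, ?_⟩
  intro x y u v _ _
  simp

theorem Rep2.sum {J : Type} (s : Finset J) (f : J → V → V → W → W → ℕ) (k : J → ℕ)
    (h : ∀ j ∈ s, Rep2 (f j) (k j)) :
    Rep2 (fun x y u v => ∑ j ∈ s, f j x y u v) (∑ j ∈ s, k j) := by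
  classical
  induction s using Finset.induction_on with
  | empty => simpa using (Rep2.zero : Rep2 (fun (_ _ : V) (_ _ : W) => 0) 0)
  | insert j s hj ih =>
    simp only [Finset.sum_insert hj]
    exact (h j (Finset.mem_insert_self _ _)).add (ih fun i hi => h i (Finset.mem_insert_of_mem hi))

/-- sums with two possible unique solutions -/
theorem sum_ind_two {ι : Type} [Fintype ι] (P : ι → Prop) (Q1 Q2 : Prop) (a1 a2 : ι)
    (hP : ∀ i, P i ↔ ((Q1 ∧ i = a1) ∨ (Q2 ∧ i = a2))) (hQ : ¬ (Q1 ∧ Q2)) :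
    ∑ i, ind (P i) = ind (Q1 ∨ Q2) := by
  by_cases h1 : Q1
  · have h2 : ¬ Q2 := fun h2 => hQ ⟨h1, h2⟩
    rw [ind_pos (Or.inl h1), Fintype.sum_eq_single a1]
    · exact ind_pos ((hP a1).2 (Or.inl ⟨h1, rfl⟩))
    · intro i hi
      apply ind_neg
      rw [hP i]
      rintro (⟨_, h⟩ | ⟨h, _⟩)
      · exact hi h
      · exact h2 h
  · by_cases h2 : Q2
    · rw [ind_pos (Or.inr h2), Fintype.sum_eq_single a2]
      · exact ind_pos ((hP a2).2 (Or.inr ⟨h2, rfl⟩))
      · intro i hi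
        apply ind_neg
        rw [hP i]
        rintro (⟨h, _⟩ | ⟨_, h⟩)
        · exact h1 h
        · exact hi h
    · rw [ind_neg (by tauto : ¬ (Q1 ∨ Q2))]
      apply Finset.sum_eq_zero
      intro i _
      apply ind_neg
      rw [hP i]
      tauto

/-- **Pull-back of a graph** along a partial map to a set with `card Γ` elements. -/
theorem Rep1.pull {Γ : Type} [Fintype Γ] (π : V → Option Γ) (h : Γ → Γ → Prop)
    (hs : ∀ γ γ', h γ γ' → h γ' γ) (a : V → V → Prop)
    (ha : ∀ x y, x ≠ y → (a x y ↔ ∃ γ γ', π x = some γ ∧ π y = some γ' ∧ γ ≠ γ' ∧ h γ γ')) :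
    Rep1 (fun x y => ind (a x y)) (Fintype.card Γ) := by
  classical
  let e : Γ ≃ Fin (Fintype.card Γ) := Fintype.equivFin Γ
  refine ⟨Γ, inferInstance, fun γ => {x | π x = some γ},
    fun γ => {y | ∃ γ', π y = some γ' ∧ e γ < e γ' ∧ h γ γ'}, le_rfl, ?_, ?_⟩
  · intro γ
    rw [Set.disjoint_left]
    rintro x (hx : π x = some γ) ⟨γ', h1, h2, _⟩
    rw [hx] at h1
    rw [Option.some_injective _ h1] at h2
    exact lt_irrefl _ h2
  · intro x y hxy
    beta_reduce
    rw [ind_congr (ha x y hxy)]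
    rcases hx : π x with _ | γ1
    · rw [ind_neg (by simp)]
      apply Finset.sum_eq_zero
      intro γ _
      apply ind_neg
      rintro (⟨h1, _⟩ | ⟨⟨γ', h1, _⟩, _⟩)
      · rw [Set.mem_setOf_eq, hx] at h1; cases h1
      · rw [hx] at h1; cases h1
    · rcases hy : π y with _ | γ2
      · rw [ind_neg (by simp)]
        apply Finset.sum_eq_zero
        intro γ _
        apply ind_neg
        rintro (⟨_, ⟨γ', h1, _⟩⟩ | ⟨_, h1⟩)
        · rw [hy] at h1; cases h1
        · rw [Set.mem_setOf_eq, hy] at h1; cases h1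
      · have hR : (∃ γ γ', some γ1 = some γ ∧ some γ2 = some γ' ∧ γ ≠ γ' ∧ h γ γ') ↔
            ((e γ1 < e γ2 ∧ h γ1 γ2) ∨ (e γ2 < e γ1 ∧ h γ2 γ1)) := by
          constructor
          · rintro ⟨γ, γ', h1, h2, h3, h4⟩
            cases h1; cases h2
            rcases lt_trichotomy (e γ1) (e γ2) with h5 | h5 | h5
            · exact Or.inl ⟨h5, h4⟩
            · exact absurd (e.injective h5) h3
            · exact Or.inr ⟨h5, hs _ _ h4⟩
          · rintro (⟨h5, h4⟩ | ⟨h5, h4⟩)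
            · exact ⟨γ1, γ2, rfl, rfl, fun h => by rw [h] at h5; exact lt_irrefl _ h5, h4⟩
            · exact ⟨γ1, γ2, rfl, rfl, fun h => by rw [h] at h5; exact lt_irrefl _ h5, hs _ _ h4⟩
        rw [ind_congr hR]
        apply sum_ind_two _ _ _ γ1 γ2
        · intro γ
          constructor
          · rintro (⟨h1, γ', h2, h3, h4⟩ | ⟨⟨γ', h2, h3, h4⟩, h1⟩)
            · rw [Set.mem_setOf_eq, hx] at h1
              rw [hy] at h2
              cases h1; cases h2
              exact Or.inl ⟨⟨h3, h4⟩, rfl⟩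
            · rw [Set.mem_setOf_eq, hy] at h1
              rw [hx] at h2
              cases h1; cases h2
              exact Or.inr ⟨⟨h3, h4⟩, rfl⟩
          · rintro (⟨⟨h3, h4⟩, rfl⟩ | ⟨⟨h3, h4⟩, rfl⟩)
            · exact Or.inl ⟨hx, γ2, hy, h3, h4⟩
            · exact Or.inr ⟨⟨γ1, hx, h3, h4⟩, hy⟩
        · rintro ⟨⟨h1, _⟩, h2, _⟩
          exact lt_asymm h1 h2

/-- any symmetric relation is represented with one star for each vertex -/
theorem Rep1.arb [Fintype V] (R : V → V → Prop) (hs : ∀ x y, R x y → R y x) :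
    Rep1 (fun x y => ind (R x y)) (Fintype.card V) := by
  refine Rep1.pull (fun x => some x) R hs R ?_
  intro x y hxy
  constructor
  · intro h; exact ⟨x, y, rfl, rfl, hxy, h⟩
  · rintro ⟨γ, γ', h1, h2, _, h4⟩
    cases h1; cases h2; exact h4

end Pool.Agent.BicliqueHalf
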