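import Mathlib
import Pool.Agent.Lib.MP_12ff4f_co.Rep

set_option autoImplicit false

/-!
Vertices are pairs (type, grid point); key graphs, represented with one biclique for each grid
point although they live on two types.
-/

namespace Pool.Agent.BicliqueHalf

open Finset

/-- vertices: a type in `T` and a point of the grid `(Ax → Fin m)` -/
abbrev Vx (T Ax : Type) (m : ℕ) := T × (Ax → Fin m)

variable {T Ax : Type} {m : ℕ}

/-- agreement outside `c, c'` -/
def Agr (c c' : Ax) (X Y : Ax → Fin m) : Prop := ∀ j, j ≠ c → j ≠ c' → X j = Y j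

theorem Agr.symm {c c' : Ax} {X Y : Ax → Fin m} (h : Agr c c' X Y) : Agr c c' Y X :=
  fun j h1 h2 => (h j h1 h2).symm

/-- The key graph for the types `p` (pairs differing exactly in `c`) and `k` (pairs differing
exactly in `c` and `c'`), with suitable edges between the types. -/
def Key (p k : T) (c c' : Ax) (x y : Vx T Ax m) : Prop :=
  (x.1 = p ∧ y.1 = p ∧ x.2 c ≠ y.2 c ∧ x.2 c' = y.2 c' ∧ Agr c c' x.2 y.2) ∨
  (x.1 = k ∧ y.1 = k ∧ x.2 c ≠ y.2 c ∧ x.2 c' ≠ y.2 c' ∧ Agr c c' x.2 y.2) ∨
  (x.1 = p ∧ y.1 = k ∧ y.2 c < x.2 c ∧ Agr c c' x.2 y.2) ∨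
  (x.1 = k ∧ y.1 = p ∧ x.2 c < y.2 c ∧ Agr c c' x.2 y.2)

theorem Key.symm {p k : T} {c c' : Ax} {x y : Vx T Ax m} (h : Key p k c c' x y) :
    Key p k c c' y x := by
  rcases h with ⟨h1, h2, h3, h4, h5⟩ | ⟨h1, h2, h3, h4, h5⟩ | ⟨h1, h2, h3, h4⟩ | ⟨h1, h2, h3, h4⟩
  · exact Or.inl ⟨h2, h1, h3.symm, h4.symm, h5.symm⟩
  · exact Or.inr (Or.inl ⟨h2, h1, h3.symm, h4.symm, h5.symm⟩)
  · exact Or.inr (Or.inr (Or.inr ⟨h2, h1, h3, h4.symm⟩))
  · exact Or.inr (Or.inr (Or.inl ⟨h2, h1, h3, h4.symm⟩))

theorem Rep1.key [Fintype Ax] [DecidableEq Ax] (p k : T) (hpk : p ≠ k) (c c' : Ax)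
    (hc : c ≠ c') :
    Rep1 (fun x y : Vx T Ax m => ind (Key p k c c' x y)) (m ^ Fintype.card Ax) := by
  classical
  -- sides of the biclique anchored at `a`
  refine ⟨Ax → Fin m, inferInstance,
    fun a => {x | (x.1 = p ∧ a c < x.2 c ∧ ∀ j, j ≠ c → x.2 j = a j) ∨
      (x.1 = k ∧ x.2 c < a c ∧ ∀ j, j ≠ c → x.2 j = a j)},
    fun a => {x | (x.1 = p ∧ x.2 = a) ∨ (x.1 = k ∧ x.2 c' ≠ a c' ∧ ∀ j, j ≠ c' → x.2 j = a j)},
    ?_, ?_, ?_⟩
  · rw [Fintype.card_fun, Fintype.card_fin]
  · intro a
    rw [Set.disjoint_left]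
    rintro x (⟨h1, h2, h3⟩ | ⟨h1, h2, h3⟩) (⟨h4, h5⟩ | ⟨h4, h5, h6⟩)
    · rw [h5] at h2; exact lt_irrefl _ h2
    · exact hpk (h1.symm.trans h4)
    · exact hpk (h4.symm.trans h1)
    · rw [h6 c hc] at h2; exact lt_irrefl _ h2
  · intro x y hxy
    beta_reduce
    -- a convenient form of the anchors
    have anchor : ∀ (X Y a : Ax → Fin m), (∀ j, j ≠ c → X j = a j) → (∀ j, j ≠ c' → Y j = a j) →
        a = Function.update X c (Y c) := by
      intro X Y a h1 h2
      funext j
      by_cases hj : j = c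
      · subst hj; rw [Function.update_self]; exact (h2 j hc).symm
      · rw [Function.update_of_ne hj]; exact (h1 j hj).symm
    have agr_of : ∀ (X Y a : Ax → Fin m), (∀ j, j ≠ c → X j = a j) →
        (∀ j, j ≠ c' → Y j = a j) → Agr c c' X Y :=
      fun X Y a h1 h2 j h3 h4 => (h1 j h3).trans (h2 j h4).symm
    have up1 : ∀ (X : Ax → Fin m) (z : Fin m), ∀ j, j ≠ c → X j = Function.update X c z j :=
      fun X z j hj => (Function.update_of_ne hj _ _).symm
    have up2 : ∀ (X Y : Ax → Fin m), Agr c c' X Y → ∀ j, j ≠ c' →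
        Y j = Function.update X c (Y c) j := by
      intro X Y h j hj
      by_cases hjc : j = c
      · subst hjc; rw [Function.update_self]
      · rw [Function.update_of_ne hjc]; exact (h j hjc hj).symm
    by_cases hx : x.1 = p
    · by_cases hy : y.1 = p
      · -- (p, p)
        have hR : Key p k c c' x y ↔
            ((y.2 c < x.2 c ∧ ∀ j, j ≠ c → x.2 j = y.2 j) ∨
              (x.2 c < y.2 c ∧ ∀ j, j ≠ c → x.2 j = y.2 j)) := by
          have e1 : x.1 ≠ k := fun h => hpk (hx.symm.trans h)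
          have e2 : y.1 ≠ k := fun h => hpk (hy.symm.trans h)
          unfold Key
          constructor
          · rintro (⟨_, _, h3, h4, h5⟩ | ⟨h1, _⟩ | ⟨_, h2, _⟩ | ⟨h1, _⟩)
            · have h6 : ∀ j, j ≠ c → x.2 j = y.2 j := by
                intro j hj
                by_cases hj' : j = c'
                · rw [hj']; exact h4
                · exact h5 j hj hj'
              rcases lt_or_gt_of_ne h3 with h | h
              · exact Or.inr ⟨h, h6⟩
              · exact Or.inl ⟨h, h6⟩
            · exact absurd h1 e1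
            · exact absurd h2 e2
            · exact absurd h1 e1
          · rintro (⟨h1, h2⟩ | ⟨h1, h2⟩)
            · exact Or.inl ⟨hx, hy, h1.ne', h2 c' hc.symm, fun j h3 _ => h2 j h3⟩
            · exact Or.inl ⟨hx, hy, h1.ne, h2 c' hc.symm, fun j h3 _ => h2 j h3⟩
        rw [ind_congr hR]
        apply sum_ind_two _ _ _ y.2 x.2
        · intro a
          have e1 : x.1 ≠ k := fun h => hpk (hx.symm.trans h)
          have e2 : y.1 ≠ k := fun h => hpk (hy.symm.trans h)
          constructor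
          · rintro (⟨(⟨_, h2, h3⟩ | ⟨h1, _⟩), (⟨_, h5⟩ | ⟨h4, _⟩)⟩ |
              ⟨(⟨_, h5⟩ | ⟨h4, _⟩), (⟨_, h2, h3⟩ | ⟨h1, _⟩)⟩)
            · subst h5; exact Or.inl ⟨⟨h2, h3⟩, rfl⟩
            · exact absurd h4 e2
            · exact absurd h1 e1
            · exact absurd h1 e1
            · subst h5; exact Or.inr ⟨⟨h2, fun j hj => (h3 j hj).symm⟩, rfl⟩
            · exact absurd h1 e2
            · exact absurd h4 e1
            · exact absurd h4 e1
          · rintro (⟨⟨h1, h2⟩, rfl⟩ | ⟨⟨h1, h2⟩, rfl⟩)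
            · exact Or.inl ⟨Or.inl ⟨hx, h1, h2⟩, Or.inl ⟨hy, rfl⟩⟩
            · exact Or.inr ⟨Or.inl ⟨hx, rfl⟩, Or.inl ⟨hy, h1, fun j hj => (h2 j hj).symm⟩⟩
        · rintro ⟨⟨h1, _⟩, h2, _⟩; exact lt_asymm h1 h2
      · by_cases hy' : y.1 = k
        · -- (p, k)
          have e1 : x.1 ≠ k := fun h => hpk (hx.symm.trans h)
          have hR : Key p k c c' x y ↔
              ((y.2 c < x.2 c ∧ y.2 c' ≠ x.2 c' ∧ Agr c c' x.2 y.2) ∨
                (y.2 c < x.2 c ∧ y.2 c' = x.2 c' ∧ Agr c c' x.2 y.2)) := by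
            unfold Key
            constructor
            · rintro (⟨_, h2, _⟩ | ⟨h1, _⟩ | ⟨_, _, h3, h4⟩ | ⟨h1, _⟩)
              · exact absurd h2 hy
              · exact absurd h1 e1
              · by_cases h : y.2 c' = x.2 c'
                · exact Or.inr ⟨h3, h, h4⟩
                · exact Or.inl ⟨h3, h, h4⟩
              · exact absurd h1 e1
            · rintro (⟨h1, _, h3⟩ | ⟨h1, _, h3⟩)
              · exact Or.inr (Or.inr (Or.inl ⟨hx, hy', h1, h3⟩))
              · exact Or.inr (Or.inr (Or.inl ⟨hx, hy', h1, h3⟩))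
          rw [ind_congr hR]
          apply sum_ind_two _ _ _ (Function.update x.2 c (y.2 c)) x.2
          · intro a
            constructor
            · rintro (⟨(⟨_, h2, h3⟩ | ⟨h1, _⟩), (⟨h4, _⟩ | ⟨_, h5, h6⟩)⟩ |
                ⟨(⟨_, h5⟩ | ⟨h4, _⟩), (⟨h1, _⟩ | ⟨_, h2, h3⟩)⟩)
              · exact absurd h4 hy
              · refine Or.inl ⟨⟨?_, ?_, agr_of _ _ _ h3 h6⟩, anchor _ _ _ h3 h6⟩
                · rw [h6 c hc]; exact h2
                · rw [h3 c' hc.symm]; exact h5
              · exact absurd h1 e1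
              · exact absurd h1 e1
              · exact absurd h1 hy
              · subst h5
                exact Or.inr ⟨⟨h2, h3 c' hc.symm, fun j hj _ => (h3 j hj).symm⟩, rfl⟩
              · exact absurd h4 e1
              · exact absurd h4 e1
            · rintro (⟨⟨h1, h2, h3⟩, rfl⟩ | ⟨⟨h1, h2, h3⟩, rfl⟩)
              · refine Or.inl ⟨Or.inl ⟨hx, ?_, up1 _ _⟩, Or.inr ⟨hy', ?_, up2 _ _ h3⟩⟩
                · rw [Function.update_self]; exact h1
                · rw [Function.update_of_ne hc.symm]; exact h2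
              · refine Or.inr ⟨Or.inl ⟨hx, rfl⟩, Or.inr ⟨hy', h1, ?_⟩⟩
                intro j hj
                by_cases hj' : j = c'
                · rw [hj']; exact h2
                · exact (h3 j hj hj').symm
          · rintro ⟨⟨_, h1, _⟩, _, h2, _⟩; exact h1 h2
        · -- (p, other)
          rw [ind_neg]
          · apply Finset.sum_eq_zero
            intro a _
            apply ind_neg
            rintro (⟨_, (⟨h4, _⟩ | ⟨h4, _⟩)⟩ | ⟨_, (⟨h4, _⟩ | ⟨h4, _⟩)⟩)
            · exact hy h4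
            · exact hy' h4
            · exact hy h4
            · exact hy' h4
          · rintro (⟨_, h2, _⟩ | ⟨_, h2, _⟩ | ⟨_, h2, _⟩ | ⟨_, h2, _⟩)
            · exact hy h2
            · exact hy' h2
            · exact hy' h2
            · exact hy h2
    · by_cases hx' : x.1 = k
      · by_cases hy : y.1 = p
        · -- (k, p)
          have e1 : y.1 ≠ k := fun h => hpk (hy.symm.trans h)
          have hR : Key p k c c' x y ↔
              ((x.2 c < y.2 c ∧ x.2 c' ≠ y.2 c' ∧ Agr c c' y.2 x.2) ∨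
                (x.2 c < y.2 c ∧ x.2 c' = y.2 c' ∧ Agr c c' y.2 x.2)) := by
            unfold Key
            constructor
            · rintro (⟨h1, _⟩ | ⟨_, h2, _⟩ | ⟨h1, _⟩ | ⟨_, _, h3, h4⟩)
              · exact absurd h1 hx
              · exact absurd h2 e1
              · exact absurd h1 hx
              · by_cases h : x.2 c' = y.2 c'
                · exact Or.inr ⟨h3, h, h4.symm⟩
                · exact Or.inl ⟨h3, h, h4.symm⟩
            · rintro (⟨h1, _, h3⟩ | ⟨h1, _, h3⟩)
              · exact Or.inr (Or.inr (Or.inr ⟨hx', hy, h1, h3.symm⟩))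
              · exact Or.inr (Or.inr (Or.inr ⟨hx', hy, h1, h3.symm⟩))
          rw [ind_congr hR]
          apply sum_ind_two _ _ _ (Function.update y.2 c (x.2 c)) y.2
          · intro a
            constructor
            · rintro (⟨(⟨h1, _⟩ | ⟨_, h2, h3⟩), (⟨_, h5⟩ | ⟨h4, _⟩)⟩ |
                ⟨(⟨h4, _⟩ | ⟨_, h5, h6⟩), (⟨_, h2, h3⟩ | ⟨h1, _⟩)⟩)
              · exact absurd h1 hx
              · exact absurd h1 hx
              · subst h5
                exact Or.inr ⟨⟨h2, h3 c' hc.symm, fun j hj _ => (h3 j hj).symm⟩, rfl⟩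
              · exact absurd h4 e1
              · exact absurd h4 hx
              · exact absurd h4 hx
              · refine Or.inl ⟨⟨?_, ?_, agr_of _ _ _ h3 h6⟩, anchor _ _ _ h3 h6⟩
                · rw [h6 c hc]; exact h2
                · rw [h3 c' hc.symm]; exact h5
              · exact absurd h1 e1
            · rintro (⟨⟨h1, h2, h3⟩, rfl⟩ | ⟨⟨h1, h2, h3⟩, rfl⟩)
              · refine Or.inr ⟨Or.inr ⟨hx', ?_, up2 _ _ h3⟩, Or.inl ⟨hy, ?_, up1 _ _⟩⟩
                · rw [Function.update_of_ne hc.symm]; exact h2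
                · rw [Function.update_self]; exact h1
              · refine Or.inl ⟨Or.inr ⟨hx', h1, ?_⟩, Or.inl ⟨hy, rfl⟩⟩
                intro j hj
                by_cases hj' : j = c'
                · rw [hj']; exact h2
                · exact (h3 j hj hj').symm
          · rintro ⟨⟨_, h1, _⟩, _, h2, _⟩; exact h1 h2
        · by_cases hy' : y.1 = k
          · -- (k, k)
            have hR : Key p k c c' x y ↔
                ((x.2 c < y.2 c ∧ x.2 c' ≠ y.2 c' ∧ Agr c c' x.2 y.2) ∨
                  (y.2 c < x.2 c ∧ x.2 c' ≠ y.2 c' ∧ Agr c c' x.2 y.2)) := by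
              unfold Key
              constructor
              · rintro (⟨h1, _⟩ | ⟨_, _, h3, h4, h5⟩ | ⟨h1, _⟩ | ⟨_, h2, _⟩)
                · exact absurd h1 hx
                · rcases lt_or_gt_of_ne h3 with h | h
                  · exact Or.inl ⟨h, h4, h5⟩
                  · exact Or.inr ⟨h, h4, h5⟩
                · exact absurd h1 hx
                · exact absurd h2 hy
              · rintro (⟨h1, h2, h3⟩ | ⟨h1, h2, h3⟩)
                · exact Or.inr (Or.inl ⟨hx', hy', h1.ne, h2, h3⟩)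
                · exact Or.inr (Or.inl ⟨hx', hy', h1.ne', h2, h3⟩)
            rw [ind_congr hR]
            apply sum_ind_two _ _ _ (Function.update x.2 c (y.2 c))
              (Function.update y.2 c (x.2 c))
            · intro a
              constructor
              · rintro (⟨(⟨h1, _⟩ | ⟨_, h2, h3⟩), (⟨h4, _⟩ | ⟨_, h5, h6⟩)⟩ |
                  ⟨(⟨h4, _⟩ | ⟨_, h5, h6⟩), (⟨h1, _⟩ | ⟨_, h2, h3⟩)⟩)
                · exact absurd h1 hx
                · exact absurd h1 hx
                · exact absurd h4 hy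
                · refine Or.inl ⟨⟨?_, ?_, agr_of _ _ _ h3 h6⟩, anchor _ _ _ h3 h6⟩
                  · rw [h6 c hc]; exact h2
                  · rw [h3 c' hc.symm]; exact h5.symm
                · exact absurd h4 hx
                · exact absurd h4 hx
                · exact absurd h1 hy
                · refine Or.inr ⟨⟨?_, ?_, (agr_of _ _ _ h3 h6).symm⟩, anchor _ _ _ h3 h6⟩
                  · rw [h6 c hc]; exact h2
                  · rw [h3 c' hc.symm]; exact h5
              · rintro (⟨⟨h1, h2, h3⟩, rfl⟩ | ⟨⟨h1, h2, h3⟩, rfl⟩)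
                · refine Or.inl ⟨Or.inr ⟨hx', ?_, up1 _ _⟩, Or.inr ⟨hy', ?_, up2 _ _ h3⟩⟩
                  · rw [Function.update_self]; exact h1
                  · rw [Function.update_of_ne hc.symm]; exact h2.symm
                · refine Or.inr ⟨Or.inr ⟨hx', ?_, up2 _ _ h3.symm⟩, Or.inr ⟨hy', ?_, up1 _ _⟩⟩
                  · rw [Function.update_of_ne hc.symm]; exact h2
                  · rw [Function.update_self]; exact h1
            · rintro ⟨⟨h1, _⟩, h2, _⟩; exact lt_asymm h1 h2
          · -- (k, other)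
            rw [ind_neg]
            · apply Finset.sum_eq_zero
              intro a _
              apply ind_neg
              rintro (⟨_, (⟨h4, _⟩ | ⟨h4, _⟩)⟩ | ⟨_, (⟨h4, _⟩ | ⟨h4, _⟩)⟩)
              · exact hy h4
              · exact hy' h4
              · exact hy h4
              · exact hy' h4
            · rintro (⟨_, h2, _⟩ | ⟨_, h2, _⟩ | ⟨_, h2, _⟩ | ⟨_, h2, _⟩)
              · exact hy h2
              · exact hy' h2
              · exact hy' h2
              · exact hy h2
      · -- x other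
        rw [ind_neg]
        · apply Finset.sum_eq_zero
          intro a _
          apply ind_neg
          rintro (⟨(⟨h4, _⟩ | ⟨h4, _⟩), _⟩ | ⟨(⟨h4, _⟩ | ⟨h4, _⟩), _⟩)
          · exact hx h4
          · exact hx' h4
          · exact hx h4
          · exact hx' h4
        · rintro (⟨h2, _⟩ | ⟨h2, _⟩ | ⟨h2, _⟩ | ⟨h2, _⟩)
          · exact hx h2
          · exact hx' h2
          · exact hx h2
          · exact hx' h2

/-- a symmetric relation supported on one type -/
theorem Rep1.oneType [Fintype Ax] [DecidableEq Ax] (p : T) (R : Vx T Ax m → Vx T Ax m → Prop)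
    (hs : ∀ x y, R x y → R y x) (hR : ∀ x y, R x y → x.1 = p ∧ y.1 = p) :
    Rep1 (fun x y => ind (R x y)) (m ^ Fintype.card Ax) := by
  classical
  have h := Rep1.pull (V := Vx T Ax m) (Γ := Ax → Fin m)
    (fun x => if x.1 = p then some x.2 else none) (fun X Y => R (p, X) (p, Y))
    (fun X Y => hs _ _) R ?_
  · rwa [Fintype.card_fun, Fintype.card_fin] at h
  · intro x y hxy
    constructor
    · intro h
      obtain ⟨h1, h2⟩ := hR x y h
      refine ⟨x.2, y.2, by simp [h1], by simp [h2], ?_, ?_⟩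
      · intro h3; exact hxy (Prod.ext (h1.trans h2.symm) h3)
      · have e1 : x = (p, x.2) := Prod.ext h1 rfl
        have e2 : y = (p, y.2) := Prod.ext h2 rfl
        rw [e1, e2] at h
        exact h
    · rintro ⟨γ, γ', h1, h2, _, h4⟩
      by_cases hx : x.1 = p
      · by_cases hy : y.1 = p
        · simp only [if_pos hx] at h1
          simp only [if_pos hy] at h2
          have e1 : x = (p, γ) := Prod.ext hx (Option.some_injective _ h1)
          have e2 : y = (p, γ') := Prod.ext hy (Option.some_injective _ h2)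
          rw [e1, e2]; exact h4
        · simp [hy] at h2
      · simp [hx] at h1

/-- a symmetric relation that does not see the coordinate `c` -/
theorem Rep1.inv [Fintype T] [Fintype Ax] [DecidableEq Ax] (c : Ax)
    (R : Vx T Ax m → Vx T Ax m → Prop)
    (hs : ∀ x y, R x y → R y x)
    (hR : ∀ x y x' y' : Vx T Ax m, x.1 = x'.1 → (∀ j, j ≠ c → x.2 j = x'.2 j) → y.1 = y'.1 →
      (∀ j, j ≠ c → y.2 j = y'.2 j) → R x y → R x' y')
    (hne : ∀ x y, R x y → ¬ (x.1 = y.1 ∧ ∀ j, j ≠ c → x.2 j = y.2 j)) :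
    Rep1 (fun x y => ind (R x y)) (Fintype.card T * m ^ (Fintype.card Ax - 1)) := by
  classical
  have h := Rep1.pull (V := Vx T Ax m) (Γ := T × ({j : Ax // j ≠ c} → Fin m))
    (fun x => some (x.1, fun j => x.2 j.1))
    (fun γ γ' => ∃ x y : Vx T Ax m, (x.1, fun j : {j : Ax // j ≠ c} => x.2 j.1) = γ ∧
      (y.1, fun j : {j : Ax // j ≠ c} => y.2 j.1) = γ' ∧ R x y)
    (fun γ γ' ⟨x, y, h1, h2, h3⟩ => ⟨y, x, h2, h1, hs _ _ h3⟩) R ?_
  · rw [Fintype.card_prod, Fintype.card_fun, Fintype.card_fin] at h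
    have e : Fintype.card {j : Ax // j ≠ c} = Fintype.card Ax - 1 := by
      rw [Fintype.card_subtype_compl, Fintype.card_subtype_eq]
    rwa [e] at h
  · intro x y _
    constructor
    · intro h
      refine ⟨_, _, rfl, rfl, ?_, x, y, rfl, rfl, h⟩
      intro h1
      rw [Prod.mk.injEq] at h1
      exact hne x y h ⟨h1.1, fun j hj => congrFun h1.2 ⟨j, hj⟩⟩
    · rintro ⟨γ, γ', h1, h2, _, x', y', h3, h4, h5⟩
      have h1' := Option.some_injective _ h1
      have h2' := Option.some_injective _ h2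
      rw [← h1'] at h3
      rw [← h2'] at h4
      rw [Prod.mk.injEq] at h3 h4
      exact hR x' y' x y h3.1 (fun j hj => congrFun h3.2 ⟨j, hj⟩) h4.1
        (fun j hj => congrFun h4.2 ⟨j, hj⟩) h5

end Pool.Agent.BicliqueHalf
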