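import Mathlib
import Pool.Agent.Lib.MP_12ff4f_co.Grid

set_option autoImplicit false

/-!
The partition of `E x E` for `q` types: `q (q + 1) / 2` main products and a bounded number of
cheap products.
-/

namespace Pool.Agent.BicliqueHalf

open Finset

/-- the axes of the grid -/
abbrev Ax (q : ℕ) := Option (Option (Fin q × Fin q))

def ao {q : ℕ} : Ax q := none
def ab {q : ℕ} : Ax q := some none
def ac {q : ℕ} (p k : Fin q) : Ax q := some (some (p, k))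

theorem ao_ne_ab {q : ℕ} : (ao : Ax q) ≠ ab := by simp [ao, ab]
theorem ac_ne_ao {q : ℕ} (p k : Fin q) : ac p k ≠ ao := by simp [ao, ac]
theorem ac_inj {q : ℕ} {p k p' k' : Fin q} (h : ac p k = ac p' k') : p = p' ∧ k = k' := by
  simpa [ac] using h

/-- vertices -/
abbrev V (q m : ℕ) := Vx (Fin q) (Ax q) m

variable {q m : ℕ}

/-- both of type `p` -/
def Ty (p : Fin q) (x y : V q m) : Prop := x.1 = p ∧ y.1 = p
/-- one of type `p`, one of type `k` -/
def Cr (p k : Fin q) (x y : V q m) : Prop := (x.1 = p ∧ y.1 = k) ∨ (x.1 = k ∧ y.1 = p)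
/-- of the same type -/
def Sm (x y : V q m) : Prop := x.1 = y.1

/-- the points differ in the coordinate `c` and agree outside `c`, `ao` -/
def Kap (c : Ax q) (x y : V q m) : Prop := x.2 c ≠ y.2 c ∧ Agr c ao x.2 y.2
/-- the points differ in the coordinate `ao` -/
def Tau (x y : V q m) : Prop := x.2 ao ≠ y.2 ao
/-- the points differ in some coordinate other than `ao` -/
def Sig (x y : V q m) : Prop := ∃ j, j ≠ ao ∧ x.2 j ≠ y.2 j
def KU (p : Fin q) (x y : V q m) : Prop := ∃ k, p < k ∧ Kap (ac p k) x y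
def KW (p : Fin q) (x y : V q m) : Prop := ∃ k, k < p ∧ Kap (ac k p) x y
/-- the points differ in the coordinate `ab` -/
def Bet (x y : V q m) : Prop := x.2 ab ≠ y.2 ab
/-- the points agree outside `ao`, `ab` -/
def Ag (x y : V q m) : Prop := Agr ao ab x.2 y.2

def Fr (p k : Fin q) (x y : V q m) : Prop := Key p k (ac p k) ao x y
def Gr (p k : Fin q) (x y : V q m) : Prop := Key k p ao ab x y

def Fs (p : Fin q) (x y : V q m) : Prop :=
  Ty p x y ∧ ((Tau x y ∧ ¬ Sig x y) ∨ (KU p x y ∧ ¬ Tau x y) ∨ (KW p x y ∧ ¬ Tau x y))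
def Gs (p : Fin q) (x y : V q m) : Prop := Ty p x y ∧ Tau x y ∧ ¬ Bet x y ∧ Ag x y

/-! symmetry -/

theorem Ty.symm {p : Fin q} {x y : V q m} (h : Ty p x y) : Ty p y x := ⟨h.2, h.1⟩
theorem Cr.symm {p k : Fin q} {x y : V q m} (h : Cr p k x y) : Cr p k y x := by
  rcases h with ⟨h1, h2⟩ | ⟨h1, h2⟩
  · exact Or.inr ⟨h2, h1⟩
  · exact Or.inl ⟨h2, h1⟩
theorem Kap.symm {c : Ax q} {x y : V q m} (h : Kap c x y) : Kap c y x := ⟨h.1.symm, h.2.symm⟩
theorem Tau.symm {x y : V q m} (h : Tau x y) : Tau y x := Ne.symm h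
theorem Bet.symm {x y : V q m} (h : Bet x y) : Bet y x := Ne.symm h
theorem Ag.symm {x y : V q m} (h : Ag x y) : Ag y x := Agr.symm h
theorem Sig.symm {x y : V q m} (h : Sig x y) : Sig y x := by
  obtain ⟨j, h1, h2⟩ := h; exact ⟨j, h1, h2.symm⟩
theorem KU.symm {p : Fin q} {x y : V q m} (h : KU p x y) : KU p y x := by
  obtain ⟨j, h1, h2⟩ := h; exact ⟨j, h1, h2.symm⟩
theorem KW.symm {p : Fin q} {x y : V q m} (h : KW p x y) : KW p y x := by
  obtain ⟨j, h1, h2⟩ := h; exact ⟨j, h1, h2.symm⟩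

/-! invariance: replacing the pair by one that agrees outside the coordinate `c` -/

/-- `(x', y')` is obtained from `(x, y)` by changing coordinate `c` only -/
def Mod (c : Ax q) (x y x' y' : V q m) : Prop :=
  x.1 = x'.1 ∧ (∀ j, j ≠ c → x.2 j = x'.2 j) ∧ y.1 = y'.1 ∧ (∀ j, j ≠ c → y.2 j = y'.2 j)

theorem Mod.symm {c : Ax q} {x y x' y' : V q m} (h : Mod c x y x' y') : Mod c x' y' x y :=
  ⟨h.1.symm, fun j hj => (h.2.1 j hj).symm, h.2.2.1.symm, fun j hj => (h.2.2.2 j hj).symm⟩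

theorem Mod.ty {c : Ax q} {x y x' y' : V q m} (h : Mod c x y x' y') {p : Fin q}
    (h' : Ty p x y) : Ty p x' y' := ⟨h.1 ▸ h'.1, h.2.2.1 ▸ h'.2⟩

theorem Mod.cr {c : Ax q} {x y x' y' : V q m} (h : Mod c x y x' y') {p k : Fin q}
    (h' : Cr p k x y) : Cr p k x' y' := by
  unfold Cr at *; rw [← h.1, ← h.2.2.1]; exact h'

theorem Mod.sm {c : Ax q} {x y x' y' : V q m} (h : Mod c x y x' y')
    (h' : Sm x y) : Sm x' y' := by
  unfold Sm at *; rw [← h.1, ← h.2.2.1]; exact h'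

theorem Mod.ne {c : Ax q} {x y x' y' : V q m} (h : Mod c x y x' y') {j : Ax q} (hj : j ≠ c)
    (h' : x.2 j ≠ y.2 j) : x'.2 j ≠ y'.2 j := by
  rw [← h.2.1 j hj, ← h.2.2.2 j hj]; exact h'

theorem Mod.agr {c : Ax q} {x y x' y' : V q m} (h : Mod c x y x' y') {a b : Ax q}
    (hc : c = a ∨ c = b) (h' : Agr a b x.2 y.2) : Agr a b x'.2 y'.2 := by
  intro j h1 h2
  have hj : j ≠ c := by rcases hc with rfl | rfl <;> assumption
  rw [← h.2.1 j hj, ← h.2.2.2 j hj]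
  exact h' j h1 h2

theorem Mod.kap {x y x' y' : V q m} (h : Mod ao x y x' y') {c : Ax q} (hc : c ≠ ao)
    (h' : Kap c x y) : Kap c x' y' := ⟨h.ne hc h'.1, h.agr (Or.inr rfl) h'.2⟩

theorem Mod.sig {x y x' y' : V q m} (h : Mod ao x y x' y') (h' : Sig x y) : Sig x' y' := by
  obtain ⟨j, h1, h2⟩ := h'
  exact ⟨j, h1, h.ne h1 h2⟩

theorem Mod.kw {x y x' y' : V q m} (h : Mod ao x y x' y') {p : Fin q} (h' : KW p x y) :
    KW p x' y' := by
  obtain ⟨k, h1, h2⟩ := h'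
  exact ⟨k, h1, h.kap (ac_ne_ao _ _) h2⟩

/-- the cross part of a key graph does not see the secondary axis -/
theorem Mod.key {x y x' y' : V q m} {c c' : Ax q} (hc : c ≠ c') {p k : Fin q} (hpk : p ≠ k)
    (h : Mod c' x y x' y') (hcr : Cr p k x y) (h' : Key p k c c' x y) : Key p k c c' x' y' := by
  rcases h' with ⟨h1, h2, _⟩ | ⟨h1, h2, _⟩ | ⟨h1, h2, h3, h4⟩ | ⟨h1, h2, h3, h4⟩
  · rcases hcr with ⟨h5, h6⟩ | ⟨h5, h6⟩
    · exact absurd (h2.symm.trans h6) hpk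
    · exact absurd (h1.symm.trans h5) hpk
  · rcases hcr with ⟨h5, h6⟩ | ⟨h5, h6⟩
    · exact absurd (h5.symm.trans h1) hpk
    · exact absurd (h6.symm.trans h2) hpk
  · refine Or.inr (Or.inr (Or.inl ⟨h.1 ▸ h1, h.2.2.1 ▸ h2, ?_, h.agr (Or.inr rfl) h4⟩))
    rw [← h.2.1 c hc, ← h.2.2.2 c hc]; exact h3
  · refine Or.inr (Or.inr (Or.inr ⟨h.1 ▸ h1, h.2.2.1 ▸ h2, ?_, h.agr (Or.inr rfl) h4⟩))
    rw [← h.2.1 c hc, ← h.2.2.2 c hc]; exact h3

theorem card_V : Fintype.card (V q m) = q * m ^ (q * q + 2) := by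
  simp only [Fintype.card_prod, Fintype.card_fun, Fintype.card_fin, Fintype.card_option]

/-- `N = |V|` -/
def NN (q m : ℕ) : ℕ := q * m ^ (q * q + 2)
/-- number of columns -/
def KK (q m : ℕ) : ℕ := q * m ^ (q * q + 1)

theorem rep_inv (c : Ax q) (R : V q m → V q m → Prop) (hs : ∀ x y, R x y → R y x)
    (hR : ∀ x y x' y' : V q m, Mod c x y x' y' → R x y → R x' y')
    (hne : ∀ x y, R x y → ¬ (x.1 = y.1 ∧ ∀ j, j ≠ c → x.2 j = y.2 j)) :
    Rep1 (fun x y => ind (R x y)) (KK q m) := by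
  have h := Rep1.inv c R hs (fun x y x' y' h1 h2 h3 h4 h5 => hR x y x' y' ⟨h1, h2, h3, h4⟩ h5) hne
  have e : Fintype.card (Fin q) * m ^ (Fintype.card (Ax q) - 1) = KK q m := by
    simp [KK, Fintype.card_option]
  rwa [e] at h

theorem rep_arb (R : V q m → V q m → Prop) (hs : ∀ x y, R x y → R y x) :
    Rep1 (fun x y => ind (R x y)) (NN q m) := by
  have h := Rep1.arb R hs
  rwa [card_V] at h

theorem rep_type (p : Fin q) (R : V q m → V q m → Prop) (hs : ∀ x y, R x y → R y x)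
    (hR : ∀ x y, R x y → Ty p x y) :
    Rep1 (fun x y => ind (R x y)) (m ^ (q * q + 2)) := by
  have h := Rep1.oneType p R hs hR
  have e : Fintype.card (Ax q) = q * q + 2 := by simp [Fintype.card_option]
  rwa [e] at h

theorem rep_key (p k : Fin q) (hpk : p ≠ k) (c c' : Ax q) (hc : c ≠ c') :
    Rep1 (fun x y : V q m => ind (Key p k c c' x y)) (m ^ (q * q + 2)) := by
  have h := Rep1.key (m := m) p k hpk c c' hc
  have e : Fintype.card (Ax q) = q * q + 2 := by simp [Fintype.card_option]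
  rwa [e] at h

/-- products with an invariant first factor -/
theorem rep_l {a b : V q m → V q m → ℕ} (h1 : Rep1 a (KK q m)) (h2 : Rep1 b (NN q m)) :
    Rep2 (fun x y u v => a x y * b u v) (KK q m * NN q m) := Rep2.mul h1 h2

theorem rep_r {a b : V q m → V q m → ℕ} (h1 : Rep1 a (NN q m)) (h2 : Rep1 b (KK q m)) :
    Rep2 (fun x y u v => a x y * b u v) (KK q m * NN q m) := by
  have := Rep2.mul h1 h2
  rwa [mul_comm (NN q m)] at this

/-- terms for different types in the first factor -/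
noncomputable def fA (p k : Fin q) (x y u v : V q m) : ℕ :=
  ind (Cr p k x y ∧ ¬ Fr p k x y) * ind True +
    ind (Cr p k x y ∧ Fr p k x y) * ind (¬ Gr p k u v)

theorem rep_fA (p k : Fin q) (hpk : p ≠ k) :
    Rep2 (fA (m := m) p k) (KK q m * NN q m + KK q m * NN q m) := by
  have hcr : ∀ x y : V q m, Cr p k x y → ¬ (x.1 = y.1 ∧ ∀ j, j ≠ ao → x.2 j = y.2 j) := by
    rintro x y (⟨h1, h2⟩ | ⟨h1, h2⟩) ⟨h3, _⟩
    · exact hpk (h1.symm.trans (h3.trans h2))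
    · exact hpk (h2.symm.trans (h3.symm.trans h1))
  apply Rep2.add
  · apply rep_l
    · apply rep_inv ao
      · rintro x y ⟨h1, h2⟩; exact ⟨h1.symm, fun h => h2 (Key.symm h)⟩
      · rintro x y x' y' hm ⟨h1, h2⟩
        exact ⟨hm.cr h1, fun h => h2 (hm.symm.key (ac_ne_ao _ _) hpk (hm.cr h1) h)⟩
      · rintro x y ⟨h1, _⟩; exact hcr x y h1
    · exact rep_arb _ fun _ _ _ => trivial
  · apply rep_l
    · apply rep_inv ao
      · rintro x y ⟨h1, h2⟩; exact ⟨h1.symm, Key.symm h2⟩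
      · rintro x y x' y' hm ⟨h1, h2⟩
        exact ⟨hm.cr h1, hm.key (ac_ne_ao _ _) hpk h1 h2⟩
      · rintro x y ⟨h1, _⟩; exact hcr x y h1
    · exact rep_arb _ fun _ _ h h' => h (Key.symm h')

/-- terms for equal types in the first and different types in the second factor -/
noncomputable def fB (p k : Fin q) (x y u v : V q m) : ℕ :=
  ind (Sm x y) * ind (Cr p k u v ∧ ¬ Gr p k u v) +
    ind (Sm x y ∧ ¬ Fr p k x y) * ind (Cr p k u v ∧ Gr p k u v)

theorem rep_fB (p k : Fin q) (hpk : p ≠ k) :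
    Rep2 (fB (m := m) p k) (KK q m * NN q m + KK q m * NN q m) := by
  have hcr : ∀ x y : V q m, Cr p k x y → ¬ (x.1 = y.1 ∧ ∀ j, j ≠ ab → x.2 j = y.2 j) := by
    rintro x y (⟨h1, h2⟩ | ⟨h1, h2⟩) ⟨h3, _⟩
    · exact hpk (h1.symm.trans (h3.trans h2))
    · exact hpk (h2.symm.trans (h3.symm.trans h1))
  have hsw : ∀ x y : V q m, Cr p k x y → Cr k p x y := fun x y h => h.elim Or.inr Or.inl
  apply Rep2.add
  · apply rep_r
    · exact rep_arb _ fun _ _ h => Eq.symm h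
    · apply rep_inv ab
      · rintro x y ⟨h1, h2⟩; exact ⟨h1.symm, fun h => h2 (Key.symm h)⟩
      · rintro x y x' y' hm ⟨h1, h2⟩
        exact ⟨hm.cr h1, fun h => h2 (hm.symm.key ao_ne_ab hpk.symm (hsw _ _ (hm.cr h1)) h)⟩
      · rintro x y ⟨h1, _⟩; exact hcr x y h1
  · apply rep_r
    · exact rep_arb _ fun _ _ h => ⟨Eq.symm h.1, fun h' => h.2 (Key.symm h')⟩
    · apply rep_inv ab
      · rintro x y ⟨h1, h2⟩; exact ⟨h1.symm, Key.symm h2⟩
      · rintro x y x' y' hm ⟨h1, h2⟩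
        exact ⟨hm.cr h1, hm.key ao_ne_ab hpk.symm (hsw _ _ h1) h2⟩
      · rintro x y ⟨h1, _⟩; exact hcr x y h1

/-- equal types in both factors, second points differing outside `ao, ab` -/
noncomputable def fD (x y u v : V q m) : ℕ := ind (Sm x y) * ind (Sm u v ∧ ¬ Ag u v)

theorem rep_fD : Rep2 (fD (q := q) (m := m)) (KK q m * NN q m) := by
  apply rep_r
  · exact rep_arb _ fun _ _ h => Eq.symm h
  · apply rep_inv ao
    · rintro x y ⟨h1, h2⟩; exact ⟨Eq.symm h1, fun h => h2 h.symm⟩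
    · rintro x y x' y' hm ⟨h1, h2⟩
      exact ⟨hm.sm h1, fun h => h2 (hm.symm.agr (Or.inl rfl) h)⟩
    · rintro x y ⟨_, h2⟩ ⟨_, h3⟩
      exact h2 fun j hj _ => h3 j hj

/-- types `p < r` -/
noncomputable def fC1 (p r : Fin q) (x y u v : V q m) : ℕ :=
  ind (Ty p x y ∧ (Tau x y ∨ ¬ Agr (ac p r) ao x.2 y.2)) * ind (Ty r u v ∧ Ag u v) +
    ind (Ty p x y ∧ ¬ Tau x y ∧ Kap (ac p r) x y) * ind (Ty r u v ∧ Bet u v ∧ Ag u v)

theorem rep_fC1 (p r : Fin q) :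
    Rep2 (fC1 (m := m) p r) (KK q m * NN q m + KK q m * NN q m) := by
  apply Rep2.add
  · apply rep_l
    · apply rep_inv (ac p r)
      · rintro x y ⟨h1, h2 | h2⟩
        · exact ⟨h1.symm, Or.inl h2.symm⟩
        · exact ⟨h1.symm, Or.inr fun h => h2 h.symm⟩
      · rintro x y x' y' hm ⟨h1, h2 | h2⟩
        · exact ⟨hm.ty h1, Or.inl (hm.ne (ac_ne_ao _ _).symm h2)⟩
        · exact ⟨hm.ty h1, Or.inr fun h => h2 (hm.symm.agr (Or.inl rfl) h)⟩
      · rintro x y ⟨_, h2 | h2⟩ ⟨_, h3⟩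
        · exact h2 (h3 ao (ac_ne_ao _ _).symm)
        · exact h2 fun j hj _ => h3 j hj
    · exact rep_arb _ fun _ _ h => ⟨h.1.symm, h.2.symm⟩
  · apply rep_r
    · exact rep_arb _ fun _ _ h => ⟨h.1.symm, fun h' => h.2.1 h'.symm, h.2.2.symm⟩
    · apply rep_inv ao
      · rintro x y ⟨h1, h2, h3⟩; exact ⟨h1.symm, h2.symm, h3.symm⟩
      · rintro x y x' y' hm ⟨h1, h2, h3⟩
        exact ⟨hm.ty h1, hm.ne ao_ne_ab.symm h2, hm.agr (Or.inl rfl) h3⟩
      · rintro x y ⟨_, h2, _⟩ ⟨_, h3⟩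
        exact h2 (h3 ab ao_ne_ab.symm)

/-- types `r < p` -/
noncomputable def fC2 (p r : Fin q) (x y u v : V q m) : ℕ :=
  ind (Ty p x y ∧ Kap (ac r p) x y) * ind (Ty r u v ∧ Tau u v ∧ ¬ Bet u v ∧ Ag u v) +
  ind (Ty p x y ∧ Tau x y ∧ Agr (ac r p) ao x.2 y.2) *
    ind (Ty r u v ∧ ¬ Tau u v ∧ Bet u v ∧ Ag u v) +
  ind (Ty p x y ∧ Kap (ac r p) x y ∧ ¬ Tau x y) * ind (Ty r u v ∧ Bet u v ∧ Ag u v) +
  ind (Ty p x y ∧ Tau x y ∧ x.2 (ac r p) = y.2 (ac r p) ∧ Agr (ac r p) ao x.2 y.2) *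
    ind (Ty r u v ∧ Tau u v ∧ Ag u v) +
  ind (Ty p x y ∧ ¬ Agr (ac r p) ao x.2 y.2) * ind (Ty r u v ∧ Ag u v)

theorem rep_fC2 (p r : Fin q) :
    Rep2 (fC2 (m := m) p r) (KK q m * NN q m + KK q m * NN q m + KK q m * NN q m +
      KK q m * NN q m + KK q m * NN q m) := by
  apply Rep2.add
  · apply Rep2.add
    · apply Rep2.add
      · apply Rep2.add
        · apply rep_l
          · apply rep_inv ao
            · rintro x y ⟨h1, h2⟩; exact ⟨h1.symm, h2.symm⟩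
            · rintro x y x' y' hm ⟨h1, h2⟩
              exact ⟨hm.ty h1, hm.kap (ac_ne_ao _ _) h2⟩
            · rintro x y ⟨_, h2⟩ ⟨_, h3⟩
              exact h2.1 (h3 _ (ac_ne_ao _ _))
          · exact rep_arb _ fun _ _ h =>
              ⟨h.1.symm, h.2.1.symm, fun h' => h.2.2.1 h'.symm, h.2.2.2.symm⟩
        · apply rep_l
          · apply rep_inv (ac r p)
            · rintro x y ⟨h1, h2, h3⟩; exact ⟨h1.symm, h2.symm, h3.symm⟩
            · rintro x y x' y' hm ⟨h1, h2, h3⟩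
              exact ⟨hm.ty h1, hm.ne (ac_ne_ao _ _).symm h2, hm.agr (Or.inl rfl) h3⟩
            · rintro x y ⟨_, h2, _⟩ ⟨_, h3⟩
              exact h2 (h3 _ (ac_ne_ao _ _).symm)
          · exact rep_arb _ fun _ _ h =>
              ⟨h.1.symm, fun h' => h.2.1 h'.symm, h.2.2.1.symm, h.2.2.2.symm⟩
      · apply rep_r
        · exact rep_arb _ fun _ _ h => ⟨h.1.symm, h.2.1.symm, fun h' => h.2.2 h'.symm⟩
        · apply rep_inv ao
          · rintro x y ⟨h1, h2, h3⟩; exact ⟨h1.symm, h2.symm, h3.symm⟩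
          · rintro x y x' y' hm ⟨h1, h2, h3⟩
            exact ⟨hm.ty h1, hm.ne ao_ne_ab.symm h2, hm.agr (Or.inl rfl) h3⟩
          · rintro x y ⟨_, h2, _⟩ ⟨_, h3⟩
            exact h2 (h3 ab ao_ne_ab.symm)
    · apply rep_r
      · exact rep_arb _ fun _ _ h => ⟨h.1.symm, h.2.1.symm, h.2.2.1.symm, h.2.2.2.symm⟩
      · apply rep_inv ab
        · rintro x y ⟨h1, h2, h3⟩; exact ⟨h1.symm, h2.symm, h3.symm⟩
        · rintro x y x' y' hm ⟨h1, h2, h3⟩
          exact ⟨hm.ty h1, hm.ne ao_ne_ab h2, hm.agr (Or.inr rfl) h3⟩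
        · rintro x y ⟨_, h2, _⟩ ⟨_, h3⟩
          exact h2 (h3 ao ao_ne_ab)
  · apply rep_l
    · apply rep_inv ao
      · rintro x y ⟨h1, h2⟩; exact ⟨h1.symm, fun h => h2 h.symm⟩
      · rintro x y x' y' hm ⟨h1, h2⟩
        exact ⟨hm.ty h1, fun h => h2 (hm.symm.agr (Or.inr rfl) h)⟩
      · rintro x y ⟨_, h2⟩ ⟨_, h3⟩
        exact h2 fun j _ hj => h3 j hj
    · exact rep_arb _ fun _ _ h => ⟨h.1.symm, h.2.symm⟩

/-- equal types -/
noncomputable def fC3 (p : Fin q) (x y u v : V q m) : ℕ :=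
  ind (Ty p x y ∧ ((Tau x y ∧ ¬ Sig x y) ∨ KW p x y)) * ind (Ty p u v ∧ Bet u v ∧ Ag u v) +
  ind (Ty p x y ∧ Sig x y ∧ ¬ KW p x y ∧ ¬ (KU p x y ∧ ¬ Tau x y)) *
    ind (Ty p u v ∧ Tau u v ∧ Ag u v) +
  ind (Ty p x y ∧ Sig x y ∧ ¬ KW p x y) * ind (Ty p u v ∧ ¬ Tau u v ∧ Bet u v ∧ Ag u v)

theorem rep_fC3 (p : Fin q) :
    Rep2 (fC3 (m := m) p) (KK q m * NN q m + KK q m * NN q m + KK q m * NN q m) := by
  apply Rep2.add
  · apply Rep2.add
    · apply rep_r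
      · refine rep_arb _ fun x y h => ⟨h.1.symm, h.2.imp ?_ fun h' => h'.symm⟩
        exact fun h' => ⟨h'.1.symm, fun h'' => h'.2 h''.symm⟩
      · apply rep_inv ao
        · rintro x y ⟨h1, h2, h3⟩; exact ⟨h1.symm, h2.symm, h3.symm⟩
        · rintro x y x' y' hm ⟨h1, h2, h3⟩
          exact ⟨hm.ty h1, hm.ne ao_ne_ab.symm h2, hm.agr (Or.inl rfl) h3⟩
        · rintro x y ⟨_, h2, _⟩ ⟨_, h3⟩
          exact h2 (h3 ab ao_ne_ab.symm)
    · apply rep_r
      · exact rep_arb _ fun x y h => ⟨h.1.symm, h.2.1.symm, fun h' => h.2.2.1 h'.symm,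
          fun h' => h.2.2.2 ⟨h'.1.symm, fun h'' => h'.2 h''.symm⟩⟩
      · apply rep_inv ab
        · rintro x y ⟨h1, h2, h3⟩; exact ⟨h1.symm, h2.symm, h3.symm⟩
        · rintro x y x' y' hm ⟨h1, h2, h3⟩
          exact ⟨hm.ty h1, hm.ne ao_ne_ab h2, hm.agr (Or.inr rfl) h3⟩
        · rintro x y ⟨_, h2, _⟩ ⟨_, h3⟩
          exact h2 (h3 ao ao_ne_ab)
  · apply rep_l
    · apply rep_inv ao
      · rintro x y ⟨h1, h2, h3⟩; exact ⟨h1.symm, h2.symm, fun h => h3 h.symm⟩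
      · rintro x y x' y' hm ⟨h1, h2, h3⟩
        exact ⟨hm.ty h1, hm.sig h2, fun h => h3 (hm.symm.kw h)⟩
      · rintro x y ⟨_, h2, _⟩ ⟨_, h3⟩
        obtain ⟨j, hj, hj'⟩ := h2
        exact hj' (h3 j hj)
    · exact rep_arb _ fun _ _ h =>
        ⟨h.1.symm, fun h' => h.2.1 h'.symm, h.2.2.1.symm, h.2.2.2.symm⟩

/-- all terms for equal types in both factors -/
noncomputable def fC (p r : Fin q) (x y u v : V q m) : ℕ :=
  if p < r then fC1 p r x y u v else if r < p then fC2 p r x y u v else fC3 p x y u v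

theorem rep_fC (p r : Fin q) : Rep2 (fC (m := m) p r) (5 * (KK q m * NN q m)) := by
  rcases lt_trichotomy p r with h | h | h
  · have e : fC (m := m) p r = fC1 p r := by
      funext x y u v; simp [fC, h]
    rw [e]
    exact (rep_fC1 p r).mono (by omega)
  · have e : fC (m := m) p r = fC3 p := by
      funext x y u v; subst h; simp [fC]
    rw [e]
    exact (rep_fC3 p).mono (by omega)
  · have e : fC (m := m) p r = fC2 p r := by
      funext x y u v; simp [fC, h, not_lt.2 h.le]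
    rw [e]
    exact (rep_fC2 p r).mono (by omega)

end Pool.Agent.BicliqueHalf
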