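import Mathlib
import Pool.Agent.Lib.MP_12ff4f_co.Terms

set_option autoImplicit false

/-!
The pointwise identity: every pair of edges is covered exactly once.
-/

namespace Pool.Agent.BicliqueHalf

open Finset

/-! propositional identities -/

theorem boolA (F G : Prop) :
    ind F * ind G + 0 + (ind (True ∧ ¬ F) * ind True + ind (True ∧ F) * ind (¬ G)) + 0 + 0 + 0
      = 1 := by
  by_cases F <;> by_cases G <;> simp_all [ind]

theorem boolB (F G : Prop) :
    ind F * ind G + 0 + 0 + (ind True * ind (True ∧ ¬ G) + ind (True ∧ ¬ F) * ind (True ∧ G)) +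
      0 + 0 = 1 := by
  by_cases F <;> by_cases G <;> simp_all [ind]

theorem boolC1 (t A κ a b B : Prop) (h1 : t ∨ κ ∨ ¬ A) (h2 : a ∨ b ∨ ¬ B) :
    ind (κ ∧ ¬ t ∧ A) * ind (a ∧ ¬ b ∧ B) + 0 + 0 + 0 + ind True * ind (True ∧ ¬ B) +
      (ind (True ∧ (t ∨ ¬ A)) * ind (True ∧ B) +
        ind (True ∧ ¬ t ∧ κ ∧ A) * ind (True ∧ b ∧ B)) = 1 := by
  by_cases t <;> by_cases A <;> by_cases κ <;> by_cases a <;> by_cases b <;> by_cases B <;>
    simp_all [ind]

theorem boolC2 (t A κ a b B : Prop) (h1 : t ∨ κ ∨ ¬ A) (h2 : a ∨ b ∨ ¬ B) :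
    ind (κ ∧ t ∧ A) * ind (a ∧ b ∧ B) + 0 + 0 + 0 + ind True * ind (True ∧ ¬ B) +
      (ind (True ∧ κ ∧ A) * ind (True ∧ a ∧ ¬ b ∧ B) +
        ind (True ∧ t ∧ A) * ind (True ∧ ¬ a ∧ b ∧ B) +
        ind (True ∧ (κ ∧ A) ∧ ¬ t) * ind (True ∧ b ∧ B) +
        ind (True ∧ t ∧ ¬ κ ∧ A) * ind (True ∧ a ∧ B) +
        ind (True ∧ ¬ A) * ind (True ∧ B)) = 1 := by
  by_cases t <;> by_cases A <;> by_cases κ <;> by_cases a <;> by_cases b <;> by_cases B <;>
    simp_all [ind]

theorem boolC3 (t s U W a b B : Prop) (h1 : t ∨ s) (hU : U → s) (hW : W → s) (hUW : ¬ (U ∧ W))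
    (h2 : a ∨ b ∨ ¬ B) :
    (ind (U ∧ ¬ t) * ind (a ∧ b ∧ B) + ind (W ∧ t) * ind (a ∧ ¬ b ∧ B)) +
      ind (True ∧ ((t ∧ ¬ s) ∨ (U ∧ ¬ t) ∨ (W ∧ ¬ t))) * ind (True ∧ a ∧ ¬ b ∧ B) +
      0 + 0 + ind True * ind (True ∧ ¬ B) +
      (ind (True ∧ ((t ∧ ¬ s) ∨ W)) * ind (True ∧ b ∧ B) +
        ind (True ∧ s ∧ ¬ W ∧ ¬ (U ∧ ¬ t)) * ind (True ∧ a ∧ B) +
        ind (True ∧ s ∧ ¬ W) * ind (True ∧ ¬ a ∧ b ∧ B)) = 1 := by
  by_cases t <;> by_cases s <;> by_cases U <;> by_cases W <;> by_cases a <;> by_cases b <;>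
    by_cases B <;> simp_all [ind]

variable {q m : ℕ}

theorem Key.types {T Ax : Type} {m : ℕ} {p k : T} {c c' : Ax} {x y : Vx T Ax m}
    (h : Key p k c c' x y) : (x.1 = p ∨ x.1 = k) ∧ (y.1 = p ∨ y.1 = k) := by
  rcases h with ⟨h1, h2, _⟩ | ⟨h1, h2, _⟩ | ⟨h1, h2, _⟩ | ⟨h1, h2, _⟩
  · exact ⟨Or.inl h1, Or.inl h2⟩
  · exact ⟨Or.inr h1, Or.inr h2⟩
  · exact ⟨Or.inl h1, Or.inr h2⟩
  · exact ⟨Or.inr h1, Or.inl h2⟩

theorem key_pp {T Ax : Type} {m : ℕ} {p k : T} {c c' : Ax} {x y : Vx T Ax m}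
    (hx : x.1 = p) (hy : y.1 = p) (hpk : p ≠ k) :
    Key p k c c' x y ↔ (x.2 c ≠ y.2 c ∧ x.2 c' = y.2 c' ∧ Agr c c' x.2 y.2) := by
  constructor
  · rintro (⟨_, _, h⟩ | ⟨h1, _⟩ | ⟨_, h1, _⟩ | ⟨h1, _⟩)
    · exact h
    · exact absurd (hx.symm.trans h1) hpk
    · exact absurd (hy.symm.trans h1) hpk
    · exact absurd (hx.symm.trans h1) hpk
  · intro h; exact Or.inl ⟨hx, hy, h⟩

theorem key_kk {T Ax : Type} {m : ℕ} {p k : T} {c c' : Ax} {x y : Vx T Ax m}
    (hx : x.1 = k) (hy : y.1 = k) (hpk : p ≠ k) :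
    Key p k c c' x y ↔ (x.2 c ≠ y.2 c ∧ x.2 c' ≠ y.2 c' ∧ Agr c c' x.2 y.2) := by
  constructor
  · rintro (⟨h1, _⟩ | ⟨_, _, h⟩ | ⟨h1, _⟩ | ⟨_, h1, _⟩)
    · exact absurd (h1.symm.trans hx) hpk
    · exact h
    · exact absurd (h1.symm.trans hx) hpk
    · exact absurd (h1.symm.trans hy) hpk
  · intro h; exact Or.inr (Or.inl ⟨hx, hy, h⟩)

def PP (q : ℕ) : Finset (Fin q × Fin q) := univ.filter fun a => a.1 < a.2

theorem mem_PP {a : Fin q × Fin q} : a ∈ PP q ↔ a.1 < a.2 := by simp [PP]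

theorem sum_PP_single {f : Fin q × Fin q → ℕ} {p k : Fin q} (hpk : p < k)
    (h : ∀ a ∈ PP q, a ≠ (p, k) → f a = 0) : ∑ a ∈ PP q, f a = f (p, k) :=
  Finset.sum_eq_single (p, k) h fun hn => absurd (mem_PP.2 hpk) hn

noncomputable def total (x y u v : V q m) : ℕ :=
  (∑ a ∈ PP q, ind (Fr a.1 a.2 x y) * ind (Gr a.1 a.2 u v)) +
  (∑ p : Fin q, ind (Fs p x y) * ind (Gs p u v)) +
  (∑ a ∈ PP q, fA a.1 a.2 x y u v) + (∑ a ∈ PP q, fB a.1 a.2 x y u v) + fD x y u v +
  ∑ p : Fin q, ∑ r : Fin q, fC p r x y u v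

theorem exists_cr {x y : V q m} (h : x.1 ≠ y.1) : ∃ p k, p < k ∧ Cr p k x y := by
  rcases lt_or_gt_of_ne h with h | h
  · exact ⟨x.1, y.1, h, Or.inl ⟨rfl, rfl⟩⟩
  · exact ⟨y.1, x.1, h, Or.inr ⟨rfl, rfl⟩⟩

theorem cr_unique {x y : V q m} {p k p' k' : Fin q} (h1 : p < k) (h2 : p' < k')
    (h : Cr p k x y) (h' : Cr p' k' x y) : p' = p ∧ k' = k := by
  rcases h with ⟨h3, h4⟩ | ⟨h3, h4⟩ <;> rcases h' with ⟨h5, h6⟩ | ⟨h5, h6⟩
  · exact ⟨h5.symm.trans h3, h6.symm.trans h4⟩
  · rw [h3] at h5; rw [h4] at h6; subst h5; subst h6; exact absurd h2 (lt_asymm h1)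
  · rw [h3] at h5; rw [h4] at h6; subst h5; subst h6; exact absurd h2 (lt_asymm h1)
  · exact ⟨h6.symm.trans h4, h5.symm.trans h3⟩

theorem cr_ne {x y : V q m} {p k : Fin q} (h1 : p < k) (h : Cr p k x y) : x.1 ≠ y.1 := by
  rcases h with ⟨h3, h4⟩ | ⟨h3, h4⟩
  · rw [h3, h4]; exact h1.ne
  · rw [h3, h4]; exact h1.ne'

theorem key_cr {x y : V q m} {p k : Fin q} {c c' : Ax q} (hne : x.1 ≠ y.1)
    (h : Key p k c c' x y) : Cr p k x y := by
  rcases h with ⟨h1, h2, _⟩ | ⟨h1, h2, _⟩ | ⟨h1, h2, _⟩ | ⟨h1, h2, _⟩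
  · exact absurd (h1.trans h2.symm) hne
  · exact absurd (h1.trans h2.symm) hne
  · exact Or.inl ⟨h1, h2⟩
  · exact Or.inr ⟨h1, h2⟩

theorem fC_zero_left {p r : Fin q} {x y u v : V q m} (h : ¬ Ty p x y) : fC p r x y u v = 0 := by
  unfold fC fC1 fC2 fC3
  simp only [h, false_and, ind_neg (not_false), zero_mul, add_zero, ite_self]

theorem fC_zero_right {p r : Fin q} {x y u v : V q m} (h : ¬ Ty r u v) : fC p r x y u v = 0 := by
  rcases lt_trichotomy p r with h' | h' | h'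
  · simp only [fC, if_pos h', fC1, h, false_and, ind_neg (not_false), mul_zero, add_zero]
  · subst h'
    simp only [fC, lt_irrefl, if_false, fC3, h, false_and, ind_neg (not_false), mul_zero,
      add_zero]
  · simp only [fC, if_pos h', if_neg (lt_asymm h'), fC2, h, false_and, ind_neg (not_false),
      mul_zero, add_zero]

theorem fA_zero {p k : Fin q} {x y u v : V q m} (h : ¬ Cr p k x y) : fA p k x y u v = 0 := by
  unfold fA
  simp only [h, false_and, ind_neg (not_false), zero_mul, add_zero]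

theorem fB_zero_left {p k : Fin q} {x y u v : V q m} (h : ¬ Sm x y) : fB p k x y u v = 0 := by
  unfold fB
  simp only [h, false_and, ind_neg (not_false), zero_mul, add_zero]

theorem fB_zero_right {p k : Fin q} {x y u v : V q m} (h : ¬ Cr p k u v) :
    fB p k x y u v = 0 := by
  unfold fB
  simp only [h, false_and, ind_neg (not_false), mul_zero, add_zero]

/-- first factor: different types -/
theorem total_A {x y u v : V q m} (hne : x.1 ≠ y.1) : total x y u v = 1 := by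
  obtain ⟨p, k, hpk, hcr⟩ := exists_cr hne
  have hu : ∀ a ∈ PP q, a ≠ (p, k) → ¬ Cr a.1 a.2 x y := by
    intro a ha hne' h
    obtain ⟨h1, h2⟩ := cr_unique hpk (mem_PP.1 ha) hcr h
    exact hne' (Prod.ext h1 h2)
  have hty : ∀ p', ¬ Ty p' x y := fun p' h => hne (h.1.trans h.2.symm)
  unfold total
  rw [sum_PP_single hpk (fun a ha h => by
      rw [ind_neg (fun h' => hu a ha h (key_cr hne h') : ¬ Fr a.1 a.2 x y), zero_mul]),
    Finset.sum_eq_zero (fun p' _ => by
      rw [ind_neg (fun h => hty p' h.1 : ¬ Fs p' x y), zero_mul]),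
    sum_PP_single hpk (fun a ha h => fA_zero (hu a ha h)),
    Finset.sum_eq_zero (s := PP q) (fun a _ => fB_zero_left hne),
    Finset.sum_eq_zero (fun p' _ => Finset.sum_eq_zero fun r _ => fC_zero_left (hty p'))]
  unfold fA fD
  have h1 : Cr p k x y ↔ True := iff_true_intro hcr
  have h2 : Sm x y ↔ False := iff_false_intro hne
  rw [ind_congr h2, ind_neg (not_false), zero_mul]
  simp only [h1]
  exact boolA _ _

/-- first factor: equal types, second factor: different types -/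
theorem total_B {x y u v : V q m} (he : x.1 = y.1) (hne : u.1 ≠ v.1) : total x y u v = 1 := by
  obtain ⟨p, k, hpk, hcr⟩ := exists_cr hne
  have hsw : ∀ {p k : Fin q} {x y : V q m}, Cr p k x y → Cr k p x y :=
    fun h => h.elim Or.inr Or.inl
  have hu : ∀ a ∈ PP q, a ≠ (p, k) → ¬ Cr a.1 a.2 u v := by
    intro a ha hne' h
    obtain ⟨h1, h2⟩ := cr_unique hpk (mem_PP.1 ha) hcr h
    exact hne' (Prod.ext h1 h2)
  have hty : ∀ p', ¬ Ty p' u v := fun p' h => hne (h.1.trans h.2.symm)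
  have hcx : ∀ a ∈ PP q, ¬ Cr a.1 a.2 x y := fun a ha h => cr_ne (mem_PP.1 ha) h he
  unfold total
  rw [sum_PP_single hpk (fun a ha h => by
      rw [ind_neg (fun h' => hu a ha h (hsw (key_cr hne h')) : ¬ Gr a.1 a.2 u v), mul_zero]),
    Finset.sum_eq_zero (fun p' _ => by
      rw [ind_neg (fun h => hty p' h.1 : ¬ Gs p' u v), mul_zero]),
    Finset.sum_eq_zero (s := PP q) (fun a ha => fA_zero (hcx a ha)),
    sum_PP_single hpk (fun a ha h => fB_zero_right (hu a ha h)),
    Finset.sum_eq_zero (fun p' _ => Finset.sum_eq_zero fun r _ => fC_zero_right (hty r))]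
  unfold fB fD
  have h1 : Cr p k u v ↔ True := iff_true_intro hcr
  have h2 : Sm x y ↔ True := iff_true_intro he
  have h3 : Sm u v ↔ False := iff_false_intro hne
  simp only [h1, h2, h3, false_and, ind_neg (not_false), mul_zero]
  exact boolB _ _

theorem kap_unique {c c' : Ax q} {x y : V q m} (hc' : c' ≠ ao) (h : Kap c x y)
    (h' : Kap c' x y) : c' = c := by
  by_contra hne
  exact h'.1 (h.2 c' hne hc')

/-- both factors: equal types -/
theorem total_C {x y u v : V q m} (hxy : x ≠ y) (huv : u ≠ v) (he : x.1 = y.1)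
    (he' : u.1 = v.1) : total x y u v = 1 := by
  obtain ⟨p, hp⟩ : ∃ p, p = x.1 := ⟨_, rfl⟩
  obtain ⟨r, hr⟩ : ∃ r, r = u.1 := ⟨_, rfl⟩
  have hx : x.1 = p := hp.symm
  have hy : y.1 = p := he.symm.trans hx
  have hu : u.1 = r := hr.symm
  have hv : v.1 = r := he'.symm.trans hu
  have hcx : ∀ a ∈ PP q, ¬ Cr a.1 a.2 x y := fun a ha h => cr_ne (mem_PP.1 ha) h he
  have hcu : ∀ a ∈ PP q, ¬ Cr a.1 a.2 u v := fun a ha h => cr_ne (mem_PP.1 ha) h he'
  have hA : ∑ a ∈ PP q, fA a.1 a.2 x y u v = 0 :=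
    Finset.sum_eq_zero fun a ha => fA_zero (hcx a ha)
  have hB : ∑ a ∈ PP q, fB a.1 a.2 x y u v = 0 :=
    Finset.sum_eq_zero fun a ha => fB_zero_right (hcu a ha)
  have hC : ∑ p' : Fin q, ∑ r' : Fin q, fC p' r' x y u v = fC p r x y u v := by
    rw [Fintype.sum_eq_single p, Fintype.sum_eq_single r]
    · intro r' hr'
      exact fC_zero_right fun h => hr' (h.1.symm.trans hu)
    · intro p' hp'
      exact Finset.sum_eq_zero fun r' _ => fC_zero_left fun h => hp' (h.1.symm.trans hx)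
  have tyx : Ty p x y ↔ True := iff_true_intro ⟨hx, hy⟩
  have tyu : Ty r u v ↔ True := iff_true_intro ⟨hu, hv⟩
  have smx : Sm x y ↔ True := iff_true_intro he
  have smu : Sm u v ↔ True := iff_true_intro he'
  have h2 : Tau u v ∨ Bet u v ∨ ¬ Ag u v := by
    by_contra hcon
    push Not at hcon
    obtain ⟨h3, h4, h5⟩ := hcon
    apply huv
    refine Prod.ext he' (funext fun j => ?_)
    by_cases hj : j = ao
    · subst hj; by_contra h; exact h3 h
    · by_cases hj' : j = ab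
      · subst hj'; by_contra h; exact h4 h
      · exact h5 j hj hj'
  have h1 : Tau x y ∨ Sig x y := by
    by_contra hcon
    push Not at hcon
    obtain ⟨h3, h4⟩ := hcon
    apply hxy
    refine Prod.ext he (funext fun j => ?_)
    by_cases hj : j = ao
    · subst hj; by_contra h; exact h3 h
    · by_contra h; exact h4 ⟨j, hj, h⟩
  have h1' : ∀ c, c ≠ ao → Tau x y ∨ x.2 c ≠ y.2 c ∨ ¬ Agr c ao x.2 y.2 := by
    intro c hc
    rcases h1 with h | ⟨j, hj, hj'⟩
    · exact Or.inl h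
    · by_cases hjc : j = c
      · subst hjc; exact Or.inr (Or.inl hj')
      · exact Or.inr (Or.inr fun h => hj' (h j hjc hj))
  have tau_iff : ∀ z w : V q m, (z.2 ao = w.2 ao) ↔ ¬ Tau z w := fun z w => by
    unfold Tau; exact not_not.symm
  have bet_iff : ∀ z w : V q m, (z.2 ab = w.2 ab) ↔ ¬ Bet z w := fun z w => by
    unfold Bet; exact not_not.symm
  rcases lt_trichotomy p r with hpr | hpr | hpr
  · -- p < r
    have hne : p ≠ r := hpr.ne
    have hM : ∑ a ∈ PP q, ind (Fr a.1 a.2 x y) * ind (Gr a.1 a.2 u v) =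
        ind (Fr p r x y) * ind (Gr p r u v) := by
      apply sum_PP_single hpr (f := fun a => ind (Fr a.1 a.2 x y) * ind (Gr a.1 a.2 u v))
      intro a ha hane
      by_contra hcon
      have hF : Fr a.1 a.2 x y := by
        by_contra h; rw [ind_neg h, zero_mul] at hcon; exact hcon rfl
      have hG : Gr a.1 a.2 u v := by
        by_contra h; rw [ind_neg h, mul_zero] at hcon; exact hcon rfl
      have t1 := hF.types.1
      have t2 := hG.types.1
      rw [hx] at t1
      rw [hu] at t2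
      have ha' := mem_PP.1 ha
      apply hane
      rcases t1 with t1 | t1 <;> rcases t2 with t2 | t2
      · exact Prod.ext t1.symm t2.symm
      · exact absurd (t1.trans t2.symm) hne
      · exact absurd (t1.trans t2.symm) hne
      · rw [← t1, ← t2] at ha'; exact absurd ha' (lt_asymm hpr)
    have hS : ∑ p' : Fin q, ind (Fs p' x y) * ind (Gs p' u v) = 0 := by
      apply Finset.sum_eq_zero
      intro p' _
      by_cases hp' : p' = p
      · subst hp'
        rw [ind_neg (fun h => hne (h.1.1.symm.trans hu) : ¬ Gs p' u v), mul_zero]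
      · rw [ind_neg (fun h => hp' (h.1.1.symm.trans hx) : ¬ Fs p' x y), zero_mul]
    have eF : Fr p r x y ↔ (x.2 (ac p r) ≠ y.2 (ac p r) ∧ ¬ Tau x y ∧
        Agr (ac p r) ao x.2 y.2) := by
      unfold Fr; rw [key_pp hx hy hne, tau_iff]
    have eG : Gr p r u v ↔ (Tau u v ∧ ¬ Bet u v ∧ Ag u v) := by
      unfold Gr; rw [key_pp hu hv hne.symm, bet_iff]; rfl
    unfold total
    rw [hM, hS, hA, hB, hC, ind_congr eF, ind_congr eG]
    simp only [fC, if_pos hpr, fC1, fD, tyx, tyu, smx, smu, Kap]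
    exact boolC1 _ _ _ _ _ _ (h1' _ (ac_ne_ao _ _)) h2
  · -- p = r
    subst hpr
    have hM : ∑ a ∈ PP q, ind (Fr a.1 a.2 x y) * ind (Gr a.1 a.2 u v) =
        ind (KU p x y ∧ ¬ Tau x y) * ind (Tau u v ∧ Bet u v ∧ Ag u v) +
          ind (KW p x y ∧ Tau x y) * ind (Tau u v ∧ ¬ Bet u v ∧ Ag u v) := by
      -- the pairs containing p
      have fU : ∀ k, p < k → (Fr p k x y ↔ (Kap (ac p k) x y ∧ ¬ Tau x y)) := by
        intro k hk
        unfold Fr Kap; rw [key_pp hx hy hk.ne, tau_iff]; tauto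
      have fW : ∀ k, k < p → (Fr k p x y ↔ (Kap (ac k p) x y ∧ Tau x y)) := by
        intro k hk
        unfold Fr Kap Tau; rw [key_kk hx hy hk.ne]; tauto
      have gU : ∀ k, p < k → (Gr p k u v ↔ (Tau u v ∧ Bet u v ∧ Ag u v)) := by
        intro k hk
        unfold Gr; rw [key_kk hu hv hk.ne']; rfl
      have gW : ∀ k, k < p → (Gr k p u v ↔ (Tau u v ∧ ¬ Bet u v ∧ Ag u v)) := by
        intro k hk
        unfold Gr; rw [key_pp hu hv hk.ne', bet_iff]; rfl
      have fkap : ∀ a ∈ PP q, Fr a.1 a.2 x y → Kap (ac a.1 a.2) x y := by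
        intro a ha h
        have ha' := mem_PP.1 ha
        rcases h.types.1 with t | t
        · rw [hx] at t
          have h' : Fr p a.2 x y := by rw [t]; exact h
          have := ((fU a.2 (t ▸ ha')).1 h').1
          rwa [t] at this
        · rw [hx] at t
          have h' : Fr a.1 p x y := by rw [t]; exact h
          have := ((fW a.1 (t ▸ ha')).1 h').1
          rwa [t] at this
      by_cases hU : KU p x y
      · obtain ⟨k, hk, hkap⟩ := hU
        have hW : ¬ KW p x y := by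
          rintro ⟨k', hk', hkap'⟩
          obtain ⟨e1, e2⟩ := ac_inj (kap_unique (ac_ne_ao _ _) hkap hkap')
          rw [e1] at hk'; exact lt_irrefl _ hk'
        have e : ∑ a ∈ PP q, ind (Fr a.1 a.2 x y) * ind (Gr a.1 a.2 u v) =
            ind (Fr p k x y) * ind (Gr p k u v) := by
          apply sum_PP_single hk (f := fun a => ind (Fr a.1 a.2 x y) * ind (Gr a.1 a.2 u v))
          intro a ha hane
          rw [ind_neg, zero_mul]
          intro hF
          obtain ⟨e1, e2⟩ := ac_inj (kap_unique (ac_ne_ao _ _) hkap (fkap a ha hF))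
          exact hane (Prod.ext e1 e2)
        have hU' : KU p x y := ⟨k, hk, hkap⟩
        rw [e, ind_congr (fU k hk), ind_congr (gU k hk),
          ind_neg (fun h => hW h.1 : ¬ (KW p x y ∧ Tau x y)), zero_mul, add_zero]
        simp only [hkap, hU']
      · by_cases hW : KW p x y
        · obtain ⟨k, hk, hkap⟩ := hW
          have e : ∑ a ∈ PP q, ind (Fr a.1 a.2 x y) * ind (Gr a.1 a.2 u v) =
              ind (Fr k p x y) * ind (Gr k p u v) := by
            apply sum_PP_single hk (f := fun a => ind (Fr a.1 a.2 x y) * ind (Gr a.1 a.2 u v))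
            intro a ha hane
            rw [ind_neg, zero_mul]
            intro hF
            obtain ⟨e1, e2⟩ := ac_inj (kap_unique (ac_ne_ao _ _) hkap (fkap a ha hF))
            exact hane (Prod.ext e1 e2)
          have hW' : KW p x y := ⟨k, hk, hkap⟩
          rw [e, ind_congr (fW k hk), ind_congr (gW k hk),
            ind_neg (fun h => hU h.1 : ¬ (KU p x y ∧ ¬ Tau x y)), zero_mul, zero_add]
          simp only [hkap, hW']
        · rw [ind_neg (fun h => hU h.1 : ¬ (KU p x y ∧ ¬ Tau x y)),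
            ind_neg (fun h => hW h.1 : ¬ (KW p x y ∧ Tau x y)), zero_mul, zero_mul, add_zero]
          apply Finset.sum_eq_zero
          intro a ha
          rw [ind_neg, zero_mul]
          intro hF
          have ha' := mem_PP.1 ha
          rcases hF.types.1 with t | t
          · rw [hx] at t
            have h' : Fr p a.2 x y := by rw [t]; exact hF
            exact hU ⟨a.2, t ▸ ha', ((fU a.2 (t ▸ ha')).1 h').1⟩
          · rw [hx] at t
            have h' : Fr a.1 p x y := by rw [t]; exact hF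
            exact hW ⟨a.1, t ▸ ha', ((fW a.1 (t ▸ ha')).1 h').1⟩
    have hS : ∑ p' : Fin q, ind (Fs p' x y) * ind (Gs p' u v) =
        ind (Fs p x y) * ind (Gs p u v) := by
      rw [Fintype.sum_eq_single p]
      intro p' hp'
      rw [ind_neg (fun h => hp' (h.1.1.symm.trans hx) : ¬ Fs p' x y), zero_mul]
    have hU : KU p x y → Sig x y := fun ⟨k, _, h⟩ => ⟨_, ac_ne_ao _ _, h.1⟩
    have hW : KW p x y → Sig x y := fun ⟨k, _, h⟩ => ⟨_, ac_ne_ao _ _, h.1⟩
    have hUW : ¬ (KU p x y ∧ KW p x y) := by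
      rintro ⟨⟨k, hk, hkap⟩, ⟨k', hk', hkap'⟩⟩
      obtain ⟨e1, e2⟩ := ac_inj (kap_unique (ac_ne_ao _ _) hkap hkap')
      rw [e1] at hk'; exact lt_irrefl _ hk'
    unfold total
    rw [hM, hS, hA, hB, hC]
    simp only [fC, lt_irrefl, if_false, fC3, fD, Fs, Gs, tyx, tyu, smx, smu]
    exact boolC3 _ _ _ _ _ _ _ h1 hU hW hUW h2
  · -- r < p
    have hne : r ≠ p := hpr.ne
    have hM : ∑ a ∈ PP q, ind (Fr a.1 a.2 x y) * ind (Gr a.1 a.2 u v) =
        ind (Fr r p x y) * ind (Gr r p u v) := by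
      apply sum_PP_single hpr (f := fun a => ind (Fr a.1 a.2 x y) * ind (Gr a.1 a.2 u v))
      intro a ha hane
      by_contra hcon
      have hF : Fr a.1 a.2 x y := by
        by_contra h; rw [ind_neg h, zero_mul] at hcon; exact hcon rfl
      have hG : Gr a.1 a.2 u v := by
        by_contra h; rw [ind_neg h, mul_zero] at hcon; exact hcon rfl
      have t1 := hF.types.1
      have t2 := hG.types.1
      rw [hx] at t1
      rw [hu] at t2
      have ha' := mem_PP.1 ha
      apply hane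
      rcases t1 with t1 | t1 <;> rcases t2 with t2 | t2
      · rw [← t1, ← t2] at ha'; exact absurd ha' (lt_asymm hpr)
      · exact absurd (t1.trans t2.symm) hne.symm
      · exact absurd (t1.trans t2.symm) hne.symm
      · exact Prod.ext t2.symm t1.symm
    have hS : ∑ p' : Fin q, ind (Fs p' x y) * ind (Gs p' u v) = 0 := by
      apply Finset.sum_eq_zero
      intro p' _
      by_cases hp' : p' = p
      · subst hp'
        rw [ind_neg (fun h => hne (hu.symm.trans h.1.1) : ¬ Gs p' u v), mul_zero]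
      · rw [ind_neg (fun h => hp' (h.1.1.symm.trans hx) : ¬ Fs p' x y), zero_mul]
    have eF : Fr r p x y ↔ (x.2 (ac r p) ≠ y.2 (ac r p) ∧ Tau x y ∧
        Agr (ac r p) ao x.2 y.2) := by
      unfold Fr; rw [key_kk hx hy hne]; rfl
    have eG : Gr r p u v ↔ (Tau u v ∧ Bet u v ∧ Ag u v) := by
      unfold Gr; rw [key_kk hu hv hne.symm]; rfl
    have eqn : (x.2 (ac r p) = y.2 (ac r p)) ↔ ¬ (x.2 (ac r p) ≠ y.2 (ac r p)) := not_not.symm
    unfold total
    rw [hM, hS, hA, hB, hC, ind_congr eF, ind_congr eG]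
    simp only [fC, if_neg (lt_asymm hpr), if_pos hpr, fC2, fD, tyx, tyu, smx, smu, Kap]
    rw [eqn]
    exact boolC2 _ _ _ _ _ _ (h1' _ (ac_ne_ao _ _)) h2

theorem total_eq_one {x y u v : V q m} (hxy : x ≠ y) (huv : u ≠ v) : total x y u v = 1 := by
  by_cases h : x.1 = y.1
  · by_cases h' : u.1 = v.1
    · exact total_C hxy huv h h'
    · exact total_B h h'
  · exact total_A h

end Pool.Agent.BicliqueHalf
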