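import Mathlib
import Pool.Agent.Lib.MP_12ff4f_co.Total
import Pool.Agent.Lib.MP_12ff4f_co.Defs

set_option autoImplicit false

/-!
Upper bound, lower bound and the limit.
-/

namespace Pool.Agent.BicliqueHalf

open Finset Filter Topology

theorem existsUnique_of_sum {ι : Type} [Fintype ι] (R : ι → Prop) (h : ∑ i, ind (R i) = 1) :
    ∃! i, R i := by
  classical
  have h1 : (univ.filter R).card = 1 := by
    rw [Finset.card_filter]
    refine Eq.trans (Finset.sum_congr rfl fun i _ => ?_) h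
    by_cases hi : R i
    · rw [if_pos hi, ind_pos hi]
    · rw [if_neg hi, ind_neg hi]
  rw [Finset.card_eq_one] at h1
  obtain ⟨a, ha⟩ := h1
  have ha' : ∀ i, R i ↔ i = a := by
    intro i
    rw [← Finset.mem_singleton, ← ha, Finset.mem_filter]
    simp
  exact ⟨a, (ha' a).2 rfl, fun i hi => (ha' i).1 hi⟩

theorem ind_mul (P Q : Prop) : ind P * ind Q = ind (P ∧ Q) := by
  by_cases P <;> by_cases Q <;> simp_all [ind]

theorem hasPartition_of_rep {V : Type} {n k : ℕ} (e : Fin n ↪ V)
    (h : Rep2 (fun (_ _ : V) (_ _ : V) => 1) k) : ∃ k', k' ≤ k ∧ HasPartition n k' := by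
  classical
  obtain ⟨ι, i1, A, B, C, D, h1, h2, h3, h4⟩ := h
  let s : (ι → Set V) → ι → Finset (Fin n) := fun A i => univ.filter fun x => e x ∈ A i
  let J := {i : ι // (s A i).Nonempty ∧ (s B i).Nonempty ∧ (s C i).Nonempty ∧ (s D i).Nonempty}
  have hs : ∀ (A : ι → Set V) i x, x ∈ s A i ↔ e x ∈ A i := by
    intro A i x; simp [s]
  let φ : Fin (Fintype.card J) ≃ J := (Fintype.equivFin J).symm
  have hd : ∀ (A B : ι → Set V), (∀ i, Disjoint (A i) (B i)) → ∀ i, Disjoint (s A i) (s B i) := by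
    intro A B h i
    rw [Finset.disjoint_left]
    intro x hx hy
    rw [hs] at hx hy
    exact Set.disjoint_left.1 (h i) hx hy
  refine ⟨Fintype.card J, (Fintype.card_subtype_le _).trans h1, fun i => s A (φ i).1,
    fun i => s B (φ i).1, fun i => s C (φ i).1, fun i => s D (φ i).1, ?_, ?_⟩
  · intro i
    obtain ⟨h5, h6, h7, h8⟩ := (φ i).2
    exact ⟨h5, h6, hd A B h2 _, h7, h8, hd C D h3 _⟩
  · intro x y u v hxy huv
    have h5 := h4 (e x) (e y) (e u) (e v) (fun h => hxy (e.injective h))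
      (fun h => huv (e.injective h))
    simp only [ind_mul] at h5
    obtain ⟨i, hi, hu⟩ := existsUnique_of_sum _ h5
    have hne : (s A i).Nonempty ∧ (s B i).Nonempty ∧ (s C i).Nonempty ∧ (s D i).Nonempty := by
      obtain ⟨h6, h7⟩ := hi
      refine ⟨?_, ?_, ?_, ?_⟩
      · rcases h6 with ⟨a, _⟩ | ⟨_, a⟩
        · exact ⟨x, (hs _ _ _).2 a⟩
        · exact ⟨y, (hs _ _ _).2 a⟩
      · rcases h6 with ⟨_, a⟩ | ⟨a, _⟩
        · exact ⟨y, (hs _ _ _).2 a⟩
        · exact ⟨x, (hs _ _ _).2 a⟩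
      · rcases h7 with ⟨a, _⟩ | ⟨_, a⟩
        · exact ⟨u, (hs _ _ _).2 a⟩
        · exact ⟨v, (hs _ _ _).2 a⟩
      · rcases h7 with ⟨_, a⟩ | ⟨a, _⟩
        · exact ⟨v, (hs _ _ _).2 a⟩
        · exact ⟨u, (hs _ _ _).2 a⟩
    refine ⟨φ.symm ⟨i, hne⟩, ?_, ?_⟩
    · simp only [Equiv.apply_symm_apply, hs]
      exact hi
    · intro j hj
      simp only [hs] at hj
      rw [Equiv.eq_symm_apply]
      exact Subtype.ext (hu _ hj)

/-- the cost of the partition for `q` types and side length `m` -/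
def cost (q m : ℕ) : ℕ :=
  ∑ _a ∈ PP q, m ^ (q * q + 2) * m ^ (q * q + 2) +
  ∑ _p : Fin q, m ^ (q * q + 2) * m ^ (q * q + 2) +
  ∑ _a ∈ PP q, (KK q m * NN q m + KK q m * NN q m) +
  ∑ _a ∈ PP q, (KK q m * NN q m + KK q m * NN q m) + KK q m * NN q m +
  ∑ _p : Fin q, ∑ _r : Fin q, 5 * (KK q m * NN q m)

theorem rep_total (q m : ℕ) :
    Rep2 (fun (_ _ : V q m) (_ _ : V q m) => 1) (cost q m) := by
  refine Rep2.congr (f := total) ?_ fun x y u v hxy huv => total_eq_one hxy huv
  unfold cost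
  apply Rep2.add (f := fun x y u v => _) (g := fun x y u v => _)
  · apply Rep2.add (f := fun x y u v => _) (g := fun x y u v => _)
    · apply Rep2.add (f := fun x y u v => _) (g := fun x y u v => _)
      · apply Rep2.add (f := fun x y u v => _) (g := fun x y u v => _)
        · apply Rep2.add (f := fun x y u v => _) (g := fun x y u v => _)
          · apply Rep2.sum
            intro a ha
            have hne := (mem_PP.1 ha).ne
            exact Rep2.mul (rep_key a.1 a.2 hne (ac a.1 a.2) ao (ac_ne_ao _ _))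
              (rep_key a.2 a.1 hne.symm ao ab ao_ne_ab)
          · apply Rep2.sum
            intro p _
            refine Rep2.mul (rep_type p _ ?_ fun x y h => h.1) (rep_type p _ ?_ fun x y h => h.1)
            · rintro x y ⟨h1, h2⟩
              refine ⟨h1.symm, ?_⟩
              rcases h2 with ⟨h3, h4⟩ | ⟨h3, h4⟩ | ⟨h3, h4⟩
              · exact Or.inl ⟨h3.symm, fun h => h4 h.symm⟩
              · exact Or.inr (Or.inl ⟨h3.symm, fun h => h4 h.symm⟩)
              · exact Or.inr (Or.inr ⟨h3.symm, fun h => h4 h.symm⟩)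
            · rintro x y ⟨h1, h2, h3, h4⟩
              exact ⟨h1.symm, h2.symm, fun h => h3 h.symm, h4.symm⟩
        · apply Rep2.sum
          intro a ha
          exact rep_fA a.1 a.2 (mem_PP.1 ha).ne
      · apply Rep2.sum
        intro a ha
        exact rep_fB a.1 a.2 (mem_PP.1 ha).ne
    · exact rep_fD
  · apply Rep2.sum
    intro p _
    apply Rep2.sum
    intro r _
    exact rep_fC p r

theorem g_le {q m n : ℕ} (h : n ≤ q * m ^ (q * q + 2)) : g n ≤ cost q m := by
  have hc : Fintype.card (Fin n) ≤ Fintype.card (V q m) := by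
    rw [Fintype.card_fin, card_V]; exact h
  obtain ⟨e⟩ := Function.Embedding.nonempty_of_card_le hc
  obtain ⟨k', h1, h2⟩ := hasPartition_of_rep e (rep_total q m)
  exact (Nat.sInf_le h2).trans h1

theorem exists_partition (n : ℕ) : ∃ k, HasPartition n k := by
  have hc : Fintype.card (Fin n) ≤ Fintype.card (V 1 n) := by
    rw [Fintype.card_fin, card_V]
    rcases Nat.eq_zero_or_pos n with h | h
    · omega
    · calc n = n ^ 1 := (pow_one n).symm
        _ ≤ n ^ (1 * 1 + 2) := Nat.pow_le_pow_right h (by norm_num)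
        _ = 1 * n ^ (1 * 1 + 2) := (one_mul _).symm
  obtain ⟨e⟩ := Function.Embedding.nonempty_of_card_le hc
  obtain ⟨k', _, h2⟩ := hasPartition_of_rep e (rep_total 1 n)
  exact ⟨k', h2⟩

theorem hasPartition_g (n : ℕ) : HasPartition n (g n) :=
  Nat.sInf_mem (exists_partition n)

/-! ### lower bound -/

/-- indicator with real values -/
noncomputable def ri {α : Type} [DecidableEq α] (S : Finset α) (x : α) : ℝ :=
  if x ∈ S then 1 else 0

theorem lower {n k : ℕ} (h : HasPartition n k) : n * n ≤ 2 * k + 2 * n + 1 := by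
  classical
  obtain ⟨A, B, C, D, hd, hu⟩ := h
  -- the linear functionals
  let w : Matrix ((Fin k ⊕ Fin k) ⊕ (Fin n ⊕ Fin n) ⊕ Unit) (Fin n × Fin n) ℝ := fun j p =>
    Sum.elim (Sum.elim (fun i => ri (A i) p.1 * ri (C i) p.2) fun i => ri (A i) p.1 * ri (D i) p.2)
      (Sum.elim (Sum.elim (fun x => if p.1 = x then 1 else 0) fun u => if p.2 = u then 1 else 0)
        fun _ => 1) j
  have hL : Function.Injective (Matrix.mulVecLin w) := by
    rw [← LinearMap.ker_eq_bot, LinearMap.ker_eq_bot']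
    intro z hz
    have hz' : ∀ j, ∑ p, w j p * z p = 0 := fun j => congrFun hz j
    have h1 : ∀ i, ∑ p, ri (A i) p.1 * ri (C i) p.2 * z p = 0 :=
      fun i => hz' (Sum.inl (Sum.inl i))
    have h2 : ∀ i, ∑ p, ri (A i) p.1 * ri (D i) p.2 * z p = 0 :=
      fun i => hz' (Sum.inl (Sum.inr i))
    have h3 : ∀ x, ∑ p : Fin n × Fin n, (if p.1 = x then 1 else 0) * z p = 0 :=
      fun i => hz' (Sum.inr (Sum.inl (Sum.inl i)))
    have h4 : ∀ u, ∑ p : Fin n × Fin n, (if p.2 = u then 1 else 0) * z p = 0 :=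
      fun i => hz' (Sum.inr (Sum.inl (Sum.inr i)))
    have h5 : ∑ p, z p = 0 := by
      have := hz' (Sum.inr (Sum.inr ()))
      simpa [w] using this
    -- the quadratic form, computed in two ways
    have q1 : ∑ p : Fin n × Fin n, ∑ p' : Fin n × Fin n,
        (if p.1 ≠ p'.1 ∧ p.2 ≠ p'.2 then (1 : ℝ) else 0) * (z p * z p') = ∑ p, z p * z p := by
      refine Finset.sum_congr rfl fun p _ => ?_
      have e1 : ∀ p' : Fin n × Fin n,
          (if p.1 ≠ p'.1 ∧ p.2 ≠ p'.2 then (1 : ℝ) else 0) * (z p * z p') =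
          z p * z p' - z p * ((if p'.1 = p.1 then 1 else 0) * z p') -
            z p * ((if p'.2 = p.2 then 1 else 0) * z p') +
            z p * (if p' = p then z p' else 0) := by
        intro p'
        by_cases e1 : p'.1 = p.1 <;> by_cases e2 : p'.2 = p.2
        · have e3 : p' = p := Prod.ext e1 e2
          simp [e3]
        · have e3 : ¬ p' = p := fun h => e2 (by rw [h])
          simp [e1, e2, e3, eq_comm]
        · have e3 : ¬ p' = p := fun h => e1 (by rw [h])
          simp [e1, e2, e3, eq_comm]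
        · have e3 : ¬ p' = p := fun h => e1 (by rw [h])
          have e1' : ¬ p.1 = p'.1 := fun h => e1 h.symm
          have e2' : ¬ p.2 = p'.2 := fun h => e2 h.symm
          simp [e1, e2, e3, e1', e2']
      rw [Finset.sum_congr rfl fun p' _ => e1 p', Finset.sum_add_distrib, Finset.sum_sub_distrib,
        Finset.sum_sub_distrib, ← Finset.mul_sum, ← Finset.mul_sum, ← Finset.mul_sum,
        ← Finset.mul_sum, h3, h4, h5, Finset.sum_ite_eq' univ p z, if_pos (Finset.mem_univ _)]
      ring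
    have hc : ∀ p p' : Fin n × Fin n,
        (if p.1 ≠ p'.1 ∧ p.2 ≠ p'.2 then (1 : ℝ) else 0) =
        ∑ i, (ri (A i) p.1 * ri (B i) p'.1 + ri (B i) p.1 * ri (A i) p'.1) *
          (ri (C i) p.2 * ri (D i) p'.2 + ri (D i) p.2 * ri (C i) p'.2) := by
      rintro ⟨x, u⟩ ⟨y, v⟩
      have key1 : ∀ i, ri (A i) x * ri (B i) y + ri (B i) x * ri (A i) y =
          if ((x ∈ A i ∧ y ∈ B i) ∨ (x ∈ B i ∧ y ∈ A i)) then 1 else 0 := by
        intro i
        have hdj := Finset.disjoint_left.1 (hd i).2.2.1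
        unfold ri
        by_cases a1 : x ∈ A i <;> by_cases a2 : y ∈ B i <;> by_cases a3 : x ∈ B i <;>
          by_cases a4 : y ∈ A i <;> simp [a1, a2, a3, a4]
        exact hdj a1 a3
      have key2 : ∀ i, ri (C i) u * ri (D i) v + ri (D i) u * ri (C i) v =
          if ((u ∈ C i ∧ v ∈ D i) ∨ (u ∈ D i ∧ v ∈ C i)) then 1 else 0 := by
        intro i
        have hdj := Finset.disjoint_left.1 (hd i).2.2.2.2.2
        unfold ri
        by_cases a1 : u ∈ C i <;> by_cases a2 : v ∈ D i <;> by_cases a3 : u ∈ D i <;>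
          by_cases a4 : v ∈ C i <;> simp [a1, a2, a3, a4]
        exact hdj a1 a3
      simp only [key1, key2]
      by_cases hxu : x ≠ y ∧ u ≠ v
      · rw [if_pos hxu]
        obtain ⟨i, hi, hi'⟩ := hu x y u v hxu.1 hxu.2
        rw [Fintype.sum_eq_single i]
        · rw [if_pos hi.1, if_pos hi.2, mul_one]
        · intro j hj
          by_cases h5 : (x ∈ A j ∧ y ∈ B j) ∨ (x ∈ B j ∧ y ∈ A j)
          · have h6 : ¬ ((u ∈ C j ∧ v ∈ D j) ∨ (u ∈ D j ∧ v ∈ C j)) :=
              fun h6 => hj (hi' j ⟨h5, h6⟩)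
            rw [if_neg h6, mul_zero]
          · rw [if_neg h5, zero_mul]
      · rw [if_neg hxu]
        symm
        apply Finset.sum_eq_zero
        intro j _
        by_cases hxy : x = y
        · rw [if_neg, zero_mul]
          subst hxy
          have hdj := Finset.disjoint_left.1 (hd j).2.2.1
          rintro (⟨h, h'⟩ | ⟨h, h'⟩)
          · exact hdj h h'
          · exact hdj h' h
        · have huv : u = v := by
            by_contra h; exact hxu ⟨hxy, h⟩
          rw [if_neg (c := (u ∈ C j ∧ v ∈ D j) ∨ (u ∈ D j ∧ v ∈ C j)), mul_zero]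
          subst huv
          have hdj := Finset.disjoint_left.1 (hd j).2.2.2.2.2
          rintro (⟨h, h'⟩ | ⟨h, h'⟩)
          · exact hdj h h'
          · exact hdj h' h
    have q2 : ∑ p : Fin n × Fin n, ∑ p' : Fin n × Fin n,
        (if p.1 ≠ p'.1 ∧ p.2 ≠ p'.2 then (1 : ℝ) else 0) * (z p * z p') = 0 := by
      have e1 : ∀ p p' : Fin n × Fin n,
          (if p.1 ≠ p'.1 ∧ p.2 ≠ p'.2 then (1 : ℝ) else 0) * (z p * z p') =
          ∑ i, ((ri (A i) p.1 * ri (C i) p.2 * z p) * (ri (B i) p'.1 * ri (D i) p'.2 * z p') +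
            (ri (A i) p.1 * ri (D i) p.2 * z p) * (ri (B i) p'.1 * ri (C i) p'.2 * z p') +
            (ri (B i) p.1 * ri (C i) p.2 * z p) * (ri (A i) p'.1 * ri (D i) p'.2 * z p') +
            (ri (B i) p.1 * ri (D i) p.2 * z p) * (ri (A i) p'.1 * ri (C i) p'.2 * z p')) := by
        intro p p'
        rw [hc, Finset.sum_mul]
        refine Finset.sum_congr rfl fun i _ => ?_
        ring
      have e2 : ∑ p : Fin n × Fin n, ∑ p' : Fin n × Fin n,
          (if p.1 ≠ p'.1 ∧ p.2 ≠ p'.2 then (1 : ℝ) else 0) * (z p * z p') =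
          ∑ i, ∑ p : Fin n × Fin n, ∑ p' : Fin n × Fin n,
            ((ri (A i) p.1 * ri (C i) p.2 * z p) * (ri (B i) p'.1 * ri (D i) p'.2 * z p') +
            (ri (A i) p.1 * ri (D i) p.2 * z p) * (ri (B i) p'.1 * ri (C i) p'.2 * z p') +
            (ri (B i) p.1 * ri (C i) p.2 * z p) * (ri (A i) p'.1 * ri (D i) p'.2 * z p') +
            (ri (B i) p.1 * ri (D i) p.2 * z p) * (ri (A i) p'.1 * ri (C i) p'.2 * z p')) := by
        rw [Finset.sum_comm (s := (univ : Finset (Fin k)))]
        refine Finset.sum_congr rfl fun p _ => ?_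
        rw [Finset.sum_comm (s := (univ : Finset (Fin k)))]
        exact Finset.sum_congr rfl fun p' _ => e1 p p'
      rw [e2]
      apply Finset.sum_eq_zero
      intro i _
      simp only [Finset.sum_add_distrib]
      rw [← Finset.sum_mul_sum, ← Finset.sum_mul_sum, ← Finset.sum_mul_sum,
        ← Finset.sum_mul_sum, h1, h2]
      ring
    rw [q2] at q1
    have hz0 : ∀ p ∈ (univ : Finset (Fin n × Fin n)), z p * z p = 0 :=
      (Finset.sum_eq_zero_iff_of_nonneg fun p _ => mul_self_nonneg _).1 q1.symm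
    funext p
    exact mul_self_eq_zero.1 (hz0 p (Finset.mem_univ _))
  have := LinearMap.finrank_le_finrank_of_injective hL
  simp only [Module.finrank_fintype_fun_eq_card, Fintype.card_prod, Fintype.card_fin,
    Fintype.card_sum, Fintype.card_unit] at this
  omega

end Pool.Agent.BicliqueHalf
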