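import Mathlib
import Pool.Agent.Lib.MP_12ff4f_co.Final

set_option autoImplicit false

namespace Pool.Agent.BicliqueHalf

open Finset Filter Topology

theorem card_PP (q : ℕ) : 2 * (PP q).card + q = q * q := by
  have h1 : (univ.filter fun a : Fin q × Fin q => a.2 < a.1).card = (PP q).card := by
    apply Finset.card_bij (fun a _ => (a.2, a.1))
    · intro a ha
      rw [Finset.mem_filter] at ha
      exact mem_PP.2 ha.2
    · intro a _ b _ h
      rw [Prod.mk.injEq] at h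
      exact Prod.ext h.2 h.1
    · intro b hb
      exact ⟨(b.2, b.1), by simpa using mem_PP.1 hb, rfl⟩
  have h2 : (univ.filter fun a : Fin q × Fin q => a.1 = a.2).card = q := by
    have : (univ.filter fun a : Fin q × Fin q => a.1 = a.2).card =
        (univ : Finset (Fin q)).card := by
      symm
      apply Finset.card_bij (fun a _ => (a, a))
      · intro a _; simp
      · intro a _ b _ h
        rw [Prod.mk.injEq] at h
        exact h.1
      · intro b hb
        rw [Finset.mem_filter] at hb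
        exact ⟨b.1, Finset.mem_univ _, Prod.ext rfl hb.2⟩
    rw [this, Finset.card_univ, Fintype.card_fin]
  have h3 : (univ : Finset (Fin q × Fin q)).card = (PP q).card +
      ((univ.filter fun a : Fin q × Fin q => a.2 < a.1).card +
        (univ.filter fun a : Fin q × Fin q => a.1 = a.2).card) := by
    rw [← Finset.card_filter_add_card_filter_not (s := (univ : Finset (Fin q × Fin q)))
      (fun a => a.1 < a.2)]
    congr 1
    rw [← Finset.card_union_of_disjoint]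
    · congr 1
      ext a
      simp only [Finset.mem_filter, Finset.mem_univ, true_and, Finset.mem_union, not_lt]
      rw [le_iff_lt_or_eq, eq_comm]
    · rw [Finset.disjoint_left]
      intro a ha hb
      rw [Finset.mem_filter] at ha hb
      rw [hb.2] at ha
      exact lt_irrefl _ ha.2
  rw [h1, h2, Finset.card_univ, Fintype.card_prod, Fintype.card_fin] at h3
  omega

theorem cost_eq (q m : ℕ) : cost q m = ((PP q).card + q) * m ^ (2 * (q * q + 2)) +
    (q * q * (4 * (PP q).card + 1 + 5 * (q * q))) * m ^ (2 * (q * q + 2) - 1) := by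
  have e1 : KK q m * NN q m = q * q * m ^ (2 * (q * q + 2) - 1) := by
    unfold KK NN
    have : 2 * (q * q + 2) - 1 = (q * q + 1) + (q * q + 2) := by omega
    rw [this, pow_add]; ring
  have e2 : m ^ (q * q + 2) * m ^ (q * q + 2) = m ^ (2 * (q * q + 2)) := by
    rw [← pow_add]; congr 1; ring
  unfold cost
  simp only [Finset.sum_const, smul_eq_mul, Finset.card_univ, Fintype.card_fin]
  rw [e1, e2]
  ring

theorem tendsto_cost (q : ℕ) (hq : 1 ≤ q) :
    Tendsto (fun m : ℕ => (cost q m : ℝ) / ((q : ℝ) ^ 2 * ((m : ℝ) - 1) ^ (2 * (q * q + 2))))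
      atTop (𝓝 (((q : ℝ) + 1) / (2 * q))) := by
  have hq0 : (q : ℝ) ≠ 0 := by
    have : (0 : ℝ) < q := by exact_mod_cast hq
    exact this.ne'
  have h1 : Tendsto (fun m : ℕ => (m : ℝ) / ((m : ℝ) + (-1))) atTop (𝓝 1) :=
    tendsto_natCast_div_add_atTop (-1 : ℝ)
  have h2 : Tendsto (fun m : ℕ => ((q * q * (4 * (PP q).card + 1 + 5 * (q * q)) : ℕ) : ℝ) /
      (m : ℝ)) atTop (𝓝 0) := tendsto_const_div_atTop_nhds_zero_nat _
  have h3 : Tendsto (fun m : ℕ => ((((PP q).card + q : ℕ) : ℝ) +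
      ((q * q * (4 * (PP q).card + 1 + 5 * (q * q)) : ℕ) : ℝ) / (m : ℝ)) *
      ((m : ℝ) / ((m : ℝ) + (-1))) ^ (2 * (q * q + 2)) / (q : ℝ) ^ 2) atTop
      (𝓝 (((((PP q).card + q : ℕ) : ℝ) + 0) * 1 ^ (2 * (q * q + 2)) / (q : ℝ) ^ 2)) :=
    ((tendsto_const_nhds.add h2).mul (h1.pow _)).div_const _
  have e : ((((PP q).card + q : ℕ) : ℝ) + 0) * 1 ^ (2 * (q * q + 2)) / (q : ℝ) ^ 2 =
      ((q : ℝ) + 1) / (2 * q) := by
    have h4 : 2 * ((PP q).card : ℝ) + q = q * q := by exact_mod_cast card_PP q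
    rw [one_pow, mul_one, add_zero]
    push_cast
    field_simp
    nlinarith
  rw [e] at h3
  refine h3.congr' ?_
  filter_upwards [eventually_ge_atTop 2] with m hm
  have hm1 : (m : ℝ) - 1 ≠ 0 := by
    have : (2 : ℝ) ≤ m := by exact_mod_cast hm
    intro h; linarith
  have hm0 : (m : ℝ) ≠ 0 := by
    have : (2 : ℝ) ≤ m := by exact_mod_cast hm
    intro h; linarith
  have e0 : (cost q m : ℝ) = (((PP q).card + q : ℕ) : ℝ) * (m : ℝ) ^ (2 * (q * q + 2)) +
      ((q * q * (4 * (PP q).card + 1 + 5 * (q * q)) : ℕ) : ℝ) *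
        (m : ℝ) ^ (2 * (q * q + 2) - 1) := by
    rw [cost_eq]; push_cast; ring
  have e2 : (m : ℝ) ^ (2 * (q * q + 2)) = m * (m : ℝ) ^ (2 * (q * q + 2) - 1) := by
    rw [← pow_succ']; congr 1
  rw [e0, ← sub_eq_add_neg, div_pow, e2]
  generalize (((PP q).card + q : ℕ) : ℝ) = c1
  generalize ((q * q * (4 * (PP q).card + 1 + 5 * (q * q)) : ℕ) : ℝ) = c2
  field_simp

theorem upper (q : ℕ) (hq : 1 ≤ q) (b : ℝ) (hb : ((q : ℝ) + 1) / (2 * q) < b) :
    ∀ᶠ n : ℕ in atTop, (g n : ℝ) / (n : ℝ) ^ 2 < b := by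
  have h1 := (tendsto_order.1 (tendsto_cost q hq)).2 b hb
  rw [eventually_atTop] at h1
  obtain ⟨M, hM⟩ := h1
  filter_upwards [eventually_ge_atTop (q * (M + 2) ^ (q * q + 2) + 1)] with n hn
  have hex : ∃ m, n ≤ q * m ^ (q * q + 2) := by
    refine ⟨n, ?_⟩
    have hn1 : 1 ≤ n := by omega
    calc n = 1 * n ^ 1 := by ring
      _ ≤ q * n ^ (q * q + 2) :=
        Nat.mul_le_mul hq (Nat.pow_le_pow_right hn1 (by omega))
  classical
  let m := Nat.find hex
  have hm : n ≤ q * m ^ (q * q + 2) := Nat.find_spec hex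
  have hmM : M + 2 < m := by
    by_contra hcon
    push Not at hcon
    have := Nat.mul_le_mul_left q (Nat.pow_le_pow_left hcon (q * q + 2))
    omega
  have hm' : q * (m - 1) ^ (q * q + 2) < n := by
    by_contra hcon
    push Not at hcon
    exact Nat.find_min hex (show m - 1 < m by omega) hcon
  have hg := g_le hm
  have hlt := hM m (by omega)
  refine lt_of_le_of_lt ?_ hlt
  have hm1 : ((m - 1 : ℕ) : ℝ) = (m : ℝ) - 1 := by
    rw [Nat.cast_sub (by omega)]; simp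
  have hpos : (0 : ℝ) < (m : ℝ) - 1 := by
    have : ((M + 2 : ℕ) : ℝ) < m := by exact_mod_cast hmM
    push_cast at this
    have h0 : (0 : ℝ) ≤ M := Nat.cast_nonneg M
    linarith
  have hqpos : (0 : ℝ) < q := by exact_mod_cast hq
  have hn2 : (q : ℝ) * ((m : ℝ) - 1) ^ (q * q + 2) ≤ n := by
    rw [← hm1]; exact_mod_cast hm'.le
  have hsq : (q : ℝ) ^ 2 * ((m : ℝ) - 1) ^ (2 * (q * q + 2)) ≤ (n : ℝ) ^ 2 := by
    have : (q : ℝ) ^ 2 * ((m : ℝ) - 1) ^ (2 * (q * q + 2)) =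
        ((q : ℝ) * ((m : ℝ) - 1) ^ (q * q + 2)) ^ 2 := by
      rw [mul_pow, ← pow_mul]; congr 2; ring
    rw [this]
    exact pow_le_pow_left₀ (by positivity) hn2 2
  have hden : (0 : ℝ) < (q : ℝ) ^ 2 * ((m : ℝ) - 1) ^ (2 * (q * q + 2)) := by positivity
  exact div_le_div₀ (Nat.cast_nonneg _) (by exact_mod_cast hg) hden hsq

theorem lower' (b : ℝ) (hb : b < 1 / 2) : ∀ᶠ n : ℕ in atTop, b < (g n : ℝ) / (n : ℝ) ^ 2 := by
  have h1 : Tendsto (fun n : ℕ => (1 : ℝ) / 2 - 1 / (n : ℝ) - (1 / 2) * (1 / (n : ℝ)) ^ 2)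
      atTop (𝓝 (1 / 2 - 0 - (1 / 2) * 0 ^ 2)) := by
    have h0 : Tendsto (fun n : ℕ => (1 : ℝ) / (n : ℝ)) atTop (𝓝 0) :=
      tendsto_const_div_atTop_nhds_zero_nat _
    exact (tendsto_const_nhds.sub h0).sub (tendsto_const_nhds.mul (h0.pow 2))
  have e : (1 : ℝ) / 2 - 0 - (1 / 2) * 0 ^ 2 = 1 / 2 := by norm_num
  rw [e] at h1
  filter_upwards [(tendsto_order.1 h1).1 b hb, eventually_ge_atTop 1] with n hn hn1
  refine lt_of_lt_of_le hn ?_
  have hl := lower (hasPartition_g n)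
  have hl' : (n : ℝ) * n ≤ 2 * (g n : ℝ) + 2 * n + 1 := by exact_mod_cast hl
  have hn0 : (0 : ℝ) < n := by exact_mod_cast hn1
  rw [le_div_iff₀ (by positivity)]
  have : ((1 : ℝ) / 2 - 1 / (n : ℝ) - (1 / 2) * (1 / (n : ℝ)) ^ 2) * (n : ℝ) ^ 2 =
      (n : ℝ) ^ 2 / 2 - n - 1 / 2 := by
    field_simp
  rw [this]
  nlinarith

theorem main : Tendsto (fun n : ℕ => (g n : ℝ) / (n : ℝ) ^ 2) atTop (𝓝 (1 / 2)) := by
  rw [tendsto_order]
  refine ⟨fun b hb => lower' b hb, fun b hb => ?_⟩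
  obtain ⟨q, hq⟩ := exists_nat_gt (1 / (b - 1 / 2))
  have hb0 : (0 : ℝ) < b - 1 / 2 := by linarith
  have hq1 : 1 ≤ q := by
    have : (0 : ℝ) < q := lt_trans (by positivity) hq
    exact_mod_cast this
  apply upper q hq1 b
  have hqpos : (0 : ℝ) < q := by exact_mod_cast hq1
  rw [div_lt_iff₀ (by positivity)]
  rw [div_lt_iff₀ hb0] at hq
  nlinarith

end Pool.Agent.BicliqueHalf
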